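import Pool.Agent.H40.Magic.Comb

/-!
# Design 1: the number of codes
-/

set_option autoImplicit false

namespace Pool.Agent.H40.Magic

theorem card_img (A : Finset (Finset ℕ)) (m1 m2 : Bool) :
    (A.image (fun T => (T, m1, m2))).card = A.card :=
  Finset.card_image_of_injective _ (fun _ _ h => (Prod.mk.inj h).1)

theorem disj_img (A B : Finset (Finset ℕ)) (m1 m2 m1' m2' : Bool) (h : (m1, m2) ≠ (m1', m2')) :
    Disjoint (A.image (fun T => (T, m1, m2))) (B.image (fun T => (T, m1', m2'))) := by
  rw [Finset.disjoint_left]
  intro c hc hc'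
  obtain ⟨T, -, rfl⟩ := Finset.mem_image.1 hc
  obtain ⟨T', -, h'⟩ := Finset.mem_image.1 hc'
  exact h (Prod.mk.inj h').2.symm

theorem card_four (A B C D : Finset (Finset ℕ)) :
    ((A.image (fun T => (T, false, false))) ∪ (B.image (fun T => (T, false, true))) ∪
      (C.image (fun T => (T, true, false))) ∪ (D.image (fun T => (T, true, true)))).card =
      A.card + B.card + C.card + D.card := by
  rw [Finset.card_union_of_disjoint, Finset.card_union_of_disjoint, Finset.card_union_of_disjoint,
    card_img, card_img, card_img, card_img]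
  · exact disj_img _ _ _ _ _ _ (by decide)
  · rw [Finset.disjoint_union_left]
    exact ⟨disj_img _ _ _ _ _ _ (by decide), disj_img _ _ _ _ _ _ (by decide)⟩
  · rw [Finset.disjoint_union_left, Finset.disjoint_union_left]
    exact ⟨⟨disj_img _ _ _ _ _ _ (by decide), disj_img _ _ _ _ _ _ (by decide)⟩,
      disj_img _ _ _ _ _ _ (by decide)⟩

theorem card1 {N : ℕ} (S : Sys N) (R : Finset (Finset ℕ)) :
    (G1 S R).card = 2 * 2 ^ N + R.card := by
  have hN : 1 ≤ N := by have := S.hq; omega
  obtain ⟨n, rfl⟩ : ∃ n, N = n + 1 := ⟨N - 1, by omega⟩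
  rw [G1, card_four, E1_card, Finset.card_powerset, Finset.card_range, Nat.add_sub_cancel, pow_succ]
  ring

theorem card2 {N : ℕ} (hN : 1 ≤ N) (R : Finset (Finset ℕ)) :
    (G2 (N := N) R).card + N = 3 * 2 ^ N + R.card := by
  have h1 : ((Finset.range N).powerset.filter (fun T => T.card ≠ 1)).card + N = 2 ^ N := by
    have h := Finset.card_filter_add_card_filter_not (s := (Finset.range N).powerset)
      (fun T : Finset ℕ => T.card = 1)
    have h2 : ((Finset.range N).powerset.filter (fun T => T.card = 1)).card = N := by
      rw [← Finset.powersetCard_eq_filter, Finset.card_powersetCard, Finset.card_range,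
        Nat.choose_one_right]
    rw [h2, Finset.card_powerset, Finset.card_range] at h
    simp only [ne_eq]
    omega
  rw [G2, card_four, Finset.card_powerset, Finset.card_range]
  omega

end Pool.Agent.H40.Magic
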