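import Pool.Agent.H40.Magic.StepAux

/-!
# Design 1: the step function on codes
-/

set_option autoImplicit false

namespace Pool.Agent.H40.Magic

variable {N : ℕ} (S : Sys N)

theorem mem_dec (c : Finset ℕ × Bool × Bool) (t : Fin (N + 2)) :
    t ∈ dec N c ↔ t.val ∈ c.1 ∨ (t.val = N ∧ c.2.1 = true) ∨ (t.val = N + 1 ∧ c.2.2 = true) :=
  Iff.rfl

theorem tr1_a (i j : ℕ) : tr1 S i 0 j ↔ (i + 1 < N ∧ j = i + 1) ∨
    (i + 1 = N ∧ (j = 0 ∨ j = N + 1)) ∨ ((i = N ∨ i = N + 1) ∧ j = N + 1) := by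
  simp [tr1]

theorem tr1_b (i j : ℕ) : tr1 S i 1 j ↔ (i < N ∧ i ≠ S.q ∧ (j = S.sg i ∨ j = 0)) ∨
    (i = S.q ∧ j = N + 1) ∨ (i = N ∧ j = N + 1) ∨ (i = N + 1 ∧ j = N) := by
  simp [tr1]

theorem step1_a (T : Finset ℕ) (hT : ∀ i ∈ T, i < N) (m1 m2 : Bool) :
    (M1 S).stepSet (dec N (T, m1, m2)) 0 =
      dec N (rot N T, false, m1 || m2 || decide (N - 1 ∈ T)) := by
  ext t
  have hq := S.hq
  rw [mem_stepSet_dec (tr1 S) (M1 S) (fun _ _ => rfl) T hT, mem_dec]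
  simp only [tr1_a, rot, Finset.mem_image, Bool.or_eq_true, decide_eq_true_eq, Bool.false_eq_true,
    and_false, false_or]
  constructor
  · rintro (⟨i, hi, (⟨h1, h2⟩ | ⟨h1, h2 | h2⟩ | ⟨h1, h2⟩)⟩ | ⟨hm, h⟩ | ⟨hm, h⟩)
    · exact Or.inl ⟨i, hi, by rw [if_neg (by omega), h2]⟩
    · exact Or.inl ⟨i, hi, by rw [if_pos h1, h2]⟩
    · refine Or.inr ⟨h2, Or.inr ?_⟩
      have : i = N - 1 := by omega
      rw [← this]
      exact hi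
    · have := hT i hi
      omega
    · exact Or.inr ⟨by omega, Or.inl (Or.inl hm)⟩
    · exact Or.inr ⟨by omega, Or.inl (Or.inr hm)⟩
  · rintro (⟨i, hi, h⟩ | ⟨h1, (h2 | h2) | h2⟩)
    · refine Or.inl ⟨i, hi, ?_⟩
      have := hT i hi
      split_ifs at h with h3
      · exact Or.inr (Or.inl ⟨h3, Or.inl h.symm⟩)
      · exact Or.inl ⟨by omega, h.symm⟩
    · exact Or.inr (Or.inl ⟨h2, Or.inr (Or.inr ⟨Or.inl trivial, h1⟩)⟩)
    · exact Or.inr (Or.inr ⟨h2, Or.inr (Or.inr ⟨Or.inr trivial, h1⟩)⟩)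
    · exact Or.inl ⟨N - 1, h2, Or.inr (Or.inl ⟨by omega, Or.inr h1⟩)⟩

theorem mem_be (T : Finset ℕ) (j : ℕ) :
    j ∈ be S T ↔ ∃ i ∈ T, i ≠ S.q ∧ (j = S.sg i ∨ j = 0) := by
  unfold be
  by_cases h : T.erase S.q = ∅
  · rw [if_pos h]
    constructor
    · intro hj
      simp at hj
    · rintro ⟨i, hi, hiq, -⟩
      have : i ∈ T.erase S.q := Finset.mem_erase.2 ⟨hiq, hi⟩
      rw [h] at this
      simp at this
  · rw [if_neg h]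
    unfold bc
    rw [Finset.mem_insert, Finset.mem_image]
    constructor
    · rintro (h0 | ⟨i, hi, hij⟩)
      · obtain ⟨i, hi⟩ := Finset.nonempty_iff_ne_empty.2 h
        rw [Finset.mem_erase] at hi
        exact ⟨i, hi.2, hi.1, Or.inr h0⟩
      · rw [Finset.mem_erase] at hi
        exact ⟨i, hi.2, hi.1, Or.inl hij.symm⟩
    · rintro ⟨i, hi, hiq, h1 | h1⟩
      · exact Or.inr ⟨i, Finset.mem_erase.2 ⟨hiq, hi⟩, h1.symm⟩
      · exact Or.inl h1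

theorem step1_b (T : Finset ℕ) (hT : ∀ i ∈ T, i < N) (m1 m2 : Bool) :
    (M1 S).stepSet (dec N (T, m1, m2)) 1 = dec N (be S T, m2, m1 || decide (S.q ∈ T)) := by
  ext t
  have hq := S.hq
  rw [mem_stepSet_dec (tr1 S) (M1 S) (fun _ _ => rfl) T hT, mem_dec]
  simp only [tr1_b, mem_be, Bool.or_eq_true, decide_eq_true_eq]
  constructor
  · rintro (⟨i, hi, (⟨h1, h2, h3⟩ | ⟨h1, h2⟩ | ⟨h1, h2⟩ | ⟨h1, h2⟩)⟩ | ⟨hm, h⟩ | ⟨hm, h⟩)
    · exact Or.inl ⟨i, hi, h2, h3⟩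
    · exact Or.inr (Or.inr ⟨h2, Or.inr (h1 ▸ hi)⟩)
    · have := hT i hi
      omega
    · have := hT i hi
      omega
    · exact Or.inr (Or.inr ⟨by omega, Or.inl hm⟩)
    · exact Or.inr (Or.inl ⟨by omega, hm⟩)
  · rintro (⟨i, hi, h2, h3⟩ | ⟨h1, h2⟩ | ⟨h1, h2 | h2⟩)
    · exact Or.inl ⟨i, hi, Or.inl ⟨hT i hi, h2, h3⟩⟩
    · exact Or.inr (Or.inr ⟨h2, Or.inr (Or.inr (Or.inr ⟨trivial, h1⟩))⟩)
    · exact Or.inr (Or.inl ⟨h2, Or.inr (Or.inr (Or.inl ⟨trivial, h1⟩))⟩)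
    · exact Or.inl ⟨S.q, h2, Or.inr (Or.inl ⟨rfl, h1⟩)⟩

theorem start1 : dec N ({S.z}, false, false) = (M1 S).start := by
  ext t
  rw [mem_dec]
  simp [M1]

theorem nil1 (T : Finset ℕ) (hT : ∀ i ∈ T, i < N) (m1 m2 : Bool) :
    [] ∈ (M1 S).acceptsFrom (dec N (T, m1, m2)) ↔ m1 = true := by
  rw [nil_mem]
  constructor
  · rintro ⟨s, hs, h⟩
    have h' : s.val = N := h
    rw [mem_dec] at hs
    rcases hs with hs | ⟨-, hs⟩ | ⟨hs, -⟩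
    · have := hT _ hs
      omega
    · exact hs
    · omega
  · intro hm
    exact ⟨⟨N, by omega⟩, Or.inr (Or.inl ⟨rfl, hm⟩), rfl⟩

end Pool.Agent.H40.Magic
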