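import Pool.Agent.H40.Magic.Comb
import Pool.Agent.H40.Magic.Step1

/-!
# Design 1: `G1` is closed

Codes `(T, false, false)` with `T ∈ R`: letter a gives `(sh T, false, false)` if `N - 1 ∉ T` and `(rot N T, false, true)`
otherwise; letter b gives `(bc S.sg T, false, false)` if `q ∉ T` and `(be S T, false, true)` otherwise.
Codes with a mode: letter a gives `(rot N T, false, true)`; letter b gives `(be S T, m2, m1 || q ∈ T)` with `be S T ∈ E1`.
-/

set_option autoImplicit false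

namespace Pool.Agent.H40.Magic

theorem mem_G1 {N : ℕ} (S : Sys N) (R : Finset (Finset ℕ)) (T : Finset ℕ) (m1 m2 : Bool) :
    (T, m1, m2) ∈ G1 S R ↔ (T ∈ R ∧ m1 = false ∧ m2 = false) ∨
      ((∀ i ∈ T, i < N) ∧ m1 = false ∧ m2 = true) ∨ (T ∈ E1 S ∧ m1 = true) := by
  unfold G1
  simp only [Finset.mem_union, Finset.mem_image, Prod.mk.injEq, Finset.mem_powerset]
  constructor
  · rintro (((⟨U, hU, rfl, h1, h2⟩ | ⟨U, hU, rfl, h1, h2⟩) | ⟨U, hU, rfl, h1, h2⟩) |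
      ⟨U, hU, rfl, h1, h2⟩)
    · exact Or.inl ⟨hU, h1.symm, h2.symm⟩
    · exact Or.inr (Or.inl ⟨fun i hi => Finset.mem_range.1 (hU hi), h1.symm, h2.symm⟩)
    · exact Or.inr (Or.inr ⟨hU, h1.symm⟩)
    · exact Or.inr (Or.inr ⟨hU, h1.symm⟩)
  · rintro (⟨h, h1, h2⟩ | ⟨h, h1, h2⟩ | ⟨h, h1⟩)
    · exact Or.inl (Or.inl (Or.inl ⟨T, h, rfl, h1.symm, h2.symm⟩))
    · exact Or.inl (Or.inl (Or.inr ⟨T, fun i hi => Finset.mem_range.2 (h i hi), rfl, h1.symm,
        h2.symm⟩))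
    · cases m2
      · exact Or.inl (Or.inr ⟨T, h, rfl, h1.symm, rfl⟩)
      · exact Or.inr ⟨T, h, rfl, h1.symm, rfl⟩

theorem closed1 {N : ℕ} (S : Sys N) (R : Finset (Finset ℕ)) (h : IsFam S R) :
    ∀ c ∈ G1 S R, ∀ a : Fin 2, ∃ c' ∈ G1 S R, dec N c' = (M1 S).stepSet (dec N c) a := by
  rintro ⟨T, m1, m2⟩ hc a
  rw [mem_G1] at hc
  have hT : ∀ i ∈ T, i < N := by
    rcases hc with ⟨hR, -⟩ | ⟨hT, -⟩ | ⟨hE, -⟩
    · exact h.sub T hR
    · exact hT
    · exact ((mem_E1 S T).1 hE).1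
  obtain rfl | rfl : a = 0 ∨ a = 1 := by omega
  · refine ⟨(rot N T, false, m1 || m2 || decide (N - 1 ∈ T)), ?_, (step1_a S T hT m1 m2).symm⟩
    rw [mem_G1]
    cases hb : (m1 || m2 || decide (N - 1 ∈ T))
    · simp only [Bool.or_eq_false_iff, decide_eq_false_iff_not] at hb
      obtain ⟨⟨rfl, rfl⟩, hN⟩ := hb
      have hR : T ∈ R := by
        rcases hc with ⟨hR, -⟩ | ⟨-, -, h2⟩ | ⟨-, h2⟩
        · exact hR
        · exact absurd h2 (by simp)
        · exact absurd h2 (by simp)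
      left
      rw [rot_eq_sh T hT hN]
      exact ⟨h.cla T hR hN, rfl, rfl⟩
    · exact Or.inr (Or.inl ⟨rot_sub T hT, rfl, rfl⟩)
  · refine ⟨(be S T, m2, m1 || decide (S.q ∈ T)), ?_, (step1_b S T hT m1 m2).symm⟩
    rw [mem_G1]
    cases m2
    · cases hb : (m1 || decide (S.q ∈ T))
      · simp only [Bool.or_eq_false_iff, decide_eq_false_iff_not] at hb
        obtain ⟨rfl, hq⟩ := hb
        have hR : T ∈ R := by
          rcases hc with ⟨hR, -⟩ | ⟨-, -, h2⟩ | ⟨-, h2⟩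
          · exact hR
          · exact absurd h2 (by simp)
          · exact absurd h2 (by simp)
        left
        rw [be_eq_bc S T (h.ne T hR) hq]
        exact ⟨h.clb T hR hq, rfl, rfl⟩
      · exact Or.inr (Or.inl ⟨be_sub S T hT, rfl, rfl⟩)
    · exact Or.inr (Or.inr ⟨be_mem_E1 S T hT, rfl⟩)

end Pool.Agent.H40.Magic
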