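import Pool.Agent.H40.Magic.StepAux

/-!
# Design 2: the step function on codes
-/

set_option autoImplicit false

namespace Pool.Agent.H40.Magic

variable {N : ℕ} (S : Sys N)

theorem mem_dec2 (c : Finset ℕ × Bool × Bool) (t : Fin (N + 2)) :
    t ∈ dec N c ↔ t.val ∈ c.1 ∨ (t.val = N ∧ c.2.1 = true) ∨ (t.val = N + 1 ∧ c.2.2 = true) :=
  Iff.rfl

theorem tr2_a (i j : ℕ) : tr2 S i 0 j ↔ (i + 1 < N ∧ j = i + 1) ∨
    (i + 1 = N ∧ j = N + 1) ∨ (i = N ∧ j = N) ∨ (i = N + 1 ∧ j = N + 1) := by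
  simp [tr2]

theorem tr2_b (i j : ℕ) : tr2 S i 1 j ↔ (i < N ∧ i ≠ S.q ∧ (j = S.sg i ∨ j = 0)) ∨
    (i = S.q ∧ j = N + 1) ∨ (i = N ∧ (j = N + 1 ∨ j = 0)) ∨ (i = N + 1 ∧ j = N) := by
  simp [tr2]

theorem step2_a (T : Finset ℕ) (hT : ∀ i ∈ T, i < N) (m1 m2 : Bool) :
    (M2 S).stepSet (dec N (T, m1, m2)) 0 =
      dec N (sh (T.erase (N - 1)), m1, m2 || decide (N - 1 ∈ T)) := by
  ext t
  have hq := S.hq
  rw [mem_stepSet_dec (tr2 S) (M2 S) (fun _ _ => rfl) T hT, mem_dec2]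
  simp only [tr2_a, sh, Finset.mem_image, Finset.mem_erase, Bool.or_eq_true, decide_eq_true_eq]
  constructor
  · rintro (⟨i, hi, (⟨h1, h2⟩ | ⟨h1, h2⟩ | ⟨h1, h2⟩ | ⟨h1, h2⟩)⟩ | ⟨hm, h⟩ | ⟨hm, h⟩)
    · exact Or.inl ⟨i, ⟨by omega, hi⟩, h2.symm⟩
    · refine Or.inr (Or.inr ⟨h2, Or.inr ?_⟩)
      have : i = N - 1 := by omega
      rw [← this]
      exact hi
    · have := hT i hi
      omega
    · have := hT i hi
      omega
    · exact Or.inr (Or.inl ⟨by omega, hm⟩)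
    · exact Or.inr (Or.inr ⟨by omega, Or.inl hm⟩)
  · rintro (⟨i, ⟨hi1, hi⟩, h⟩ | ⟨h1, h2⟩ | ⟨h1, h2 | h2⟩)
    · have := hT i hi
      exact Or.inl ⟨i, hi, Or.inl ⟨by omega, h.symm⟩⟩
    · exact Or.inr (Or.inl ⟨h2, Or.inr (Or.inr (Or.inl ⟨trivial, h1⟩))⟩)
    · exact Or.inr (Or.inr ⟨h2, Or.inr (Or.inr (Or.inr ⟨trivial, h1⟩))⟩)
    · exact Or.inl ⟨N - 1, h2, Or.inr (Or.inl ⟨by omega, h1⟩)⟩

theorem mem_be2 (T : Finset ℕ) (m1 : Bool) (j : ℕ) :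
    j ∈ be2 S T m1 ↔ (∃ i ∈ T, i ≠ S.q ∧ (j = S.sg i ∨ j = 0)) ∨ (m1 = true ∧ j = 0) := by
  unfold be2
  by_cases h : T.erase S.q = ∅ ∧ m1 = false
  · rw [if_pos h]
    constructor
    · intro hj
      simp at hj
    · rintro (⟨i, hi, hiq, -⟩ | ⟨hm, -⟩)
      · have : i ∈ T.erase S.q := Finset.mem_erase.2 ⟨hiq, hi⟩
        rw [h.1] at this
        simp at this
      · rw [h.2] at hm
        exact absurd hm (by simp)
  · rw [if_neg h]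
    unfold bc
    rw [Finset.mem_insert, Finset.mem_image]
    constructor
    · rintro (h0 | ⟨i, hi, hij⟩)
      · by_cases hm : m1 = true
        · exact Or.inr ⟨hm, h0⟩
        · have hm' : m1 = false := by simpa using hm
          have hne : T.erase S.q ≠ ∅ := fun he => h ⟨he, hm'⟩
          obtain ⟨i, hi⟩ := Finset.nonempty_iff_ne_empty.2 hne
          rw [Finset.mem_erase] at hi
          exact Or.inl ⟨i, hi.2, hi.1, Or.inr h0⟩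
      · rw [Finset.mem_erase] at hi
        exact Or.inl ⟨i, hi.2, hi.1, Or.inl hij.symm⟩
    · rintro (⟨i, hi, hiq, h1 | h1⟩ | ⟨-, h1⟩)
      · exact Or.inr ⟨i, Finset.mem_erase.2 ⟨hiq, hi⟩, h1.symm⟩
      · exact Or.inl h1
      · exact Or.inl h1

theorem step2_b (T : Finset ℕ) (hT : ∀ i ∈ T, i < N) (m1 m2 : Bool) :
    (M2 S).stepSet (dec N (T, m1, m2)) 1 = dec N (be2 S T m1, m2, m1 || decide (S.q ∈ T)) := by
  ext t
  have hq := S.hq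
  rw [mem_stepSet_dec (tr2 S) (M2 S) (fun _ _ => rfl) T hT, mem_dec2]
  simp only [tr2_b, mem_be2, Bool.or_eq_true, decide_eq_true_eq]
  constructor
  · rintro (⟨i, hi, (⟨h1, h2, h3⟩ | ⟨h1, h2⟩ | ⟨h1, h2⟩ | ⟨h1, h2⟩)⟩ | ⟨hm, h⟩ | ⟨hm, h⟩)
    · exact Or.inl (Or.inl ⟨i, hi, h2, h3⟩)
    · exact Or.inr (Or.inr ⟨h2, Or.inr (h1 ▸ hi)⟩)
    · have := hT i hi
      omega
    · have := hT i hi
      omega
    · rcases h with h | h | ⟨-, h | h⟩ | h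
      · omega
      · omega
      · exact Or.inr (Or.inr ⟨h, Or.inl hm⟩)
      · exact Or.inl (Or.inr ⟨hm, h⟩)
      · omega
    · exact Or.inr (Or.inl ⟨by omega, hm⟩)
  · rintro ((⟨i, hi, h2, h3⟩ | ⟨hm, h⟩) | ⟨h1, h2⟩ | ⟨h1, h2 | h2⟩)
    · exact Or.inl ⟨i, hi, Or.inl ⟨hT i hi, h2, h3⟩⟩
    · exact Or.inr (Or.inl ⟨hm, Or.inr (Or.inr (Or.inl ⟨trivial, Or.inr h⟩))⟩)
    · exact Or.inr (Or.inr ⟨h2, Or.inr (Or.inr (Or.inr ⟨trivial, h1⟩))⟩)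
    · exact Or.inr (Or.inl ⟨h2, Or.inr (Or.inr (Or.inl ⟨trivial, Or.inl h1⟩))⟩)
    · exact Or.inl ⟨S.q, h2, Or.inr (Or.inl ⟨rfl, h1⟩)⟩

theorem start2 : dec N ({S.z}, false, false) = (M2 S).start := by
  ext t
  rw [mem_dec2]
  simp [M2]

theorem nil2 (T : Finset ℕ) (hT : ∀ i ∈ T, i < N) (m1 m2 : Bool) :
    [] ∈ (M2 S).acceptsFrom (dec N (T, m1, m2)) ↔ N - 1 ∈ T := by
  have hq := S.hq
  rw [nil_mem]
  constructor
  · rintro ⟨s, hs, h⟩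
    have h' : s.val + 1 = N := h
    rw [mem_dec2] at hs
    rcases hs with hs | ⟨hs, -⟩ | ⟨hs, -⟩
    · have : N - 1 = s.val := by omega
      rw [this]
      exact hs
    · omega
    · omega
  · intro hm
    exact ⟨⟨N - 1, by omega⟩, Or.inl hm, show N - 1 + 1 = N by omega⟩

end Pool.Agent.H40.Magic
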