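import Pool.Agent.H40.Magic.Comb
import Pool.Agent.H40.Magic.Step2

/-!
# Design 2: `G2` is closed

The only restriction besides the mode `(false, false)`: mode `(true, false)` has `|T| ≠ 1`.  Letter a from `(T, true, false)` with
`N - 1 ∉ T` keeps `|T|`; letter b from `(T, false, true)` with `q ∉ T` gives `∅` (if `T = ∅`) or `|T| + 1 ≥ 2` elements.
-/

set_option autoImplicit false

namespace Pool.Agent.H40.Magic

theorem closed2_aux_mem {N : ℕ} (R : Finset (Finset ℕ)) (T : Finset ℕ) (m1 m2 : Bool) :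
    (T, m1, m2) ∈ G2 (N := N) R ↔
      (m1 = false ∧ m2 = false ∧ T ∈ R) ∨ (m1 = false ∧ m2 = true ∧ ∀ i ∈ T, i < N) ∨
      (m1 = true ∧ m2 = false ∧ (∀ i ∈ T, i < N) ∧ T.card ≠ 1) ∨
      (m1 = true ∧ m2 = true ∧ ∀ i ∈ T, i < N) := by
  have hp : T ∈ (Finset.range N).powerset ↔ ∀ i ∈ T, i < N := by
    rw [Finset.mem_powerset]
    exact ⟨fun h i hi => Finset.mem_range.1 (h hi), fun h i hi => Finset.mem_range.2 (h i hi)⟩
  unfold G2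
  simp only [Finset.mem_union, Finset.mem_image, Prod.mk.injEq, Finset.mem_filter]
  constructor
  · rintro (((⟨U, hU, rfl, rfl, rfl⟩ | ⟨U, hU, rfl, rfl, rfl⟩) | ⟨U, hU, rfl, rfl, rfl⟩) |
      ⟨U, hU, rfl, rfl, rfl⟩)
    · exact Or.inl ⟨rfl, rfl, hU⟩
    · exact Or.inr (Or.inl ⟨rfl, rfl, hp.1 hU⟩)
    · exact Or.inr (Or.inr (Or.inl ⟨rfl, rfl, hp.1 hU.1, hU.2⟩))
    · exact Or.inr (Or.inr (Or.inr ⟨rfl, rfl, hp.1 hU⟩))
  · rintro (⟨rfl, rfl, h⟩ | ⟨rfl, rfl, h⟩ | ⟨rfl, rfl, h, h'⟩ | ⟨rfl, rfl, h⟩)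
    · exact Or.inl (Or.inl (Or.inl ⟨T, h, rfl, rfl, rfl⟩))
    · exact Or.inl (Or.inl (Or.inr ⟨T, hp.2 h, rfl, rfl, rfl⟩))
    · exact Or.inl (Or.inr ⟨T, ⟨hp.2 h, h'⟩, rfl, rfl, rfl⟩)
    · exact Or.inr ⟨T, hp.2 h, rfl, rfl, rfl⟩

theorem closed2_aux_sh {N : ℕ} (T : Finset ℕ) (hT : ∀ i ∈ T, i < N) :
    ∀ i ∈ sh (T.erase (N - 1)), i < N := by
  intro i hi
  unfold sh at hi
  rw [Finset.mem_image] at hi
  obtain ⟨k, hk, rfl⟩ := hi
  rw [Finset.mem_erase] at hk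
  have h1 := hT k hk.2
  have h2 := hk.1
  omega

theorem closed2_aux_be2 {N : ℕ} (S : Sys N) (T : Finset ℕ) (m : Bool) (hT : ∀ i ∈ T, i < N) :
    ∀ i ∈ be2 S T m, i < N := by
  unfold be2
  split_ifs with h
  · intro i hi
    simp at hi
  · exact bc_sub S _ (fun i hi => hT i (Finset.mem_of_mem_erase hi)) (Finset.notMem_erase _ _)

theorem closed2_aux_ne {N : ℕ} (S : Sys N) (T : Finset ℕ) (hT : T.Nonempty) (hq : S.q ∉ T) :
    be2 S T false = bc S.sg T := by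
  unfold be2
  rw [Finset.erase_eq_of_notMem hq, if_neg]
  rintro ⟨h, _⟩
  exact hT.ne_empty h

theorem closed2 {N : ℕ} (S : Sys N) (R : Finset (Finset ℕ)) (h : IsFam S R) :
    ∀ c ∈ G2 (N := N) R, ∀ a : Fin 2, ∃ c' ∈ G2 (N := N) R,
      dec N c' = (M2 S).stepSet (dec N c) a := by
  rintro ⟨T, m1, m2⟩ hc a
  rw [closed2_aux_mem] at hc
  have hT : ∀ i ∈ T, i < N := by
    rcases hc with ⟨_, _, h1⟩ | ⟨_, _, h1⟩ | ⟨_, _, h1, _⟩ | ⟨_, _, h1⟩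
    · exact h.sub T h1
    · exact h1
    · exact h1
    · exact h1
  have ha : a = 0 ∨ a = 1 := by omega
  rcases ha with rfl | rfl
  · refine ⟨_, ?_, (step2_a S T hT m1 m2).symm⟩
    rw [closed2_aux_mem]
    have hs := closed2_aux_sh T hT
    by_cases hN : N - 1 ∈ T
    · rcases hc with ⟨rfl, rfl, h1⟩ | ⟨rfl, rfl, h1⟩ | ⟨rfl, rfl, h1, h2⟩ | ⟨rfl, rfl, h1⟩
      · exact Or.inr (Or.inl ⟨rfl, by simp [hN], hs⟩)
      · exact Or.inr (Or.inl ⟨rfl, by simp, hs⟩)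
      · exact Or.inr (Or.inr (Or.inr ⟨rfl, by simp [hN], hs⟩))
      · exact Or.inr (Or.inr (Or.inr ⟨rfl, by simp, hs⟩))
    · rcases hc with ⟨rfl, rfl, h1⟩ | ⟨rfl, rfl, h1⟩ | ⟨rfl, rfl, h1, h2⟩ | ⟨rfl, rfl, h1⟩
      · refine Or.inl ⟨rfl, by simp [hN], ?_⟩
        rw [Finset.erase_eq_of_notMem hN]
        exact h.cla T h1 hN
      · exact Or.inr (Or.inl ⟨rfl, by simp, hs⟩)
      · refine Or.inr (Or.inr (Or.inl ⟨rfl, by simp [hN], hs, ?_⟩))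
        rw [Finset.erase_eq_of_notMem hN, sh_card]
        exact h2
      · exact Or.inr (Or.inr (Or.inr ⟨rfl, by simp, hs⟩))
  · refine ⟨_, ?_, (step2_b S T hT m1 m2).symm⟩
    rw [closed2_aux_mem]
    by_cases hq : S.q ∈ T
    · rcases hc with ⟨rfl, rfl, h1⟩ | ⟨rfl, rfl, h1⟩ | ⟨rfl, rfl, h1, h2⟩ | ⟨rfl, rfl, h1⟩
      · exact Or.inr (Or.inl ⟨rfl, by simp [hq], closed2_aux_be2 S T _ hT⟩)
      · exact Or.inr (Or.inr (Or.inr ⟨rfl, by simp [hq], closed2_aux_be2 S T _ hT⟩))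
      · exact Or.inr (Or.inl ⟨rfl, by simp, closed2_aux_be2 S T _ hT⟩)
      · exact Or.inr (Or.inr (Or.inr ⟨rfl, by simp, closed2_aux_be2 S T _ hT⟩))
    · rcases hc with ⟨rfl, rfl, h1⟩ | ⟨rfl, rfl, h1⟩ | ⟨rfl, rfl, h1, h2⟩ | ⟨rfl, rfl, h1⟩
      · refine Or.inl ⟨rfl, by simp [hq], ?_⟩
        rw [closed2_aux_ne S T (h.ne T h1) hq]
        exact h.clb T h1 hq
      · refine Or.inr (Or.inr (Or.inl ⟨rfl, by simp [hq], closed2_aux_be2 S T _ hT, ?_⟩))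
        rcases T.eq_empty_or_nonempty with rfl | hne
        · simp [be2]
        · rw [closed2_aux_ne S T hne hq, bc_card S T hT hq]
          have := hne.card_pos
          omega
      · exact Or.inr (Or.inl ⟨rfl, by simp, closed2_aux_be2 S T _ hT⟩)
      · exact Or.inr (Or.inr (Or.inr ⟨rfl, by simp, closed2_aux_be2 S T _ hT⟩))

end Pool.Agent.H40.Magic
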