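import Pool.Agent.H40.Magic.Step3

/-!
# Top family: closed, distinct, cardinality

The numbers `V_r = 2 ^ (r + 1) - 1`, `1 ≤ r < j`, are excluded.  Letter a: the result is even, so it is not a `V_r`.
Letter b, low, `x ≤ 1`: even.  Letter b, low, `x ≥ 2`: `2 x + 1 = V_r` forces `x = V_(r-1)` with `r ≥ 2`, excluded.
Letter b, high: the result has digit `j` equal to 1, so it is not a `V_r` with `r < j`.
-/

set_option autoImplicit false

namespace Pool.Agent.H40.Magic

theorem mem_G3 (N j x : ℕ) :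
    x ∈ G3 N j ↔ x < 2 ^ (N + 1) ∧ ∀ r, 1 ≤ r → r < j → x ≠ 2 ^ (r + 1) - 1 := by
  rw [G3, Finset.mem_sdiff, Finset.mem_range, Finset.mem_image]
  constructor
  · rintro ⟨h1, h2⟩
    exact ⟨h1, fun r hr1 hr2 he => h2 ⟨r, Finset.mem_Ico.2 ⟨hr1, hr2⟩, he.symm⟩⟩
  · rintro ⟨h1, h2⟩
    refine ⟨h1, ?_⟩
    rintro ⟨r, hr, he⟩
    rw [Finset.mem_Ico] at hr
    exact h2 r hr.1 hr.2 he.symm

theorem even_ne_V {x r : ℕ} (hx : x % 2 = 0) : x ≠ 2 ^ (r + 1) - 1 := by
  intro h
  have h1 : 1 ≤ 2 ^ r := Nat.one_le_two_pow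
  rw [pow_succ] at h
  omega

theorem closed3 (N j : ℕ) (hN : 1 ≤ N) (hj1 : 1 ≤ j) (hj : j ≤ N) :
    ∀ x ∈ G3 N j, ∀ a : Fin 2, ∃ y ∈ G3 N j, dec3 N y = (M3 N j).stepSet (dec3 N x) a := by
  intro x hx a
  rw [mem_G3] at hx
  obtain ⟨hx, hV⟩ := hx
  have hpos : 0 < 2 ^ N := Nat.two_pow_pos N
  have hsucc : 2 ^ (N + 1) = 2 * 2 ^ N := by rw [pow_succ]; ring
  rcases (show a = 0 ∨ a = 1 by fin_cases a <;> simp) with rfl | rfl
  · refine ⟨(2 * x) % 2 ^ (N + 1), ?_, (step3_a N j x hx).symm⟩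
    rw [mem_G3]
    refine ⟨Nat.mod_lt _ (Nat.two_pow_pos _), fun r _ _ => even_ne_V ?_⟩
    rw [hsucc, Nat.mul_mod_mul_left]
    omega
  · by_cases hlow : x < 2 ^ N
    · refine ⟨_, ?_, (step3_b_low N j x hN hlow).symm⟩
      rw [mem_G3]
      split_ifs with h1
      · refine ⟨by omega, fun r _ _ => even_ne_V (by omega)⟩
      · refine ⟨by omega, ?_⟩
        intro r hr1 hr2 he
        have h2 : 2 ^ (r + 1) = 2 * 2 ^ r := by rw [pow_succ]; ring
        have h3 : x = 2 ^ r - 1 := by omega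
        obtain ⟨s, rfl⟩ : ∃ s, r = s + 1 := ⟨r - 1, by omega⟩
        rcases Nat.eq_zero_or_pos s with hs | hs
        · subst hs
          norm_num at h3
          omega
        · exact hV s hs (by omega) h3
    · obtain ⟨x', rfl⟩ : ∃ x', x = 2 ^ N + x' := ⟨x - 2 ^ N, by omega⟩
      have hx' : x' < 2 ^ N := by omega
      refine ⟨_, ?_, (step3_b_high N j x' hN hj hx').symm⟩
      rw [mem_G3]
      refine ⟨?_, ?_⟩
      · apply Nat.or_lt_two_pow
        · omega
        · have h1 : 2 ^ (j + 1) ≤ 2 ^ (N + 1) := Nat.pow_le_pow_right (by norm_num) (by omega)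
          have h2 : 1 ≤ 2 ^ (j + 1) := Nat.one_le_two_pow
          omega
      · intro r hr1 hr2 he
        have h1 : ((2 * x') ||| (2 ^ (j + 1) - 1)).testBit j = true := by
          rw [Nat.testBit_or, Nat.testBit_two_pow_sub_one]
          simp
        rw [he, Nat.testBit_two_pow_sub_one, decide_eq_true_eq] at h1
        omega

theorem dist3 (N j : ℕ) : ∀ x ∈ G3 N j, ∀ y ∈ G3 N j,
    (M3 N j).acceptsFrom (dec3 N x) = (M3 N j).acceptsFrom (dec3 N y) → x = y := by
  intro x hx y hy h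
  rw [mem_G3] at hx hy
  apply Nat.eq_of_testBit_eq
  intro i
  by_cases hi : i ≤ N
  · have h1 := read3 N j (N - i) x (by omega)
    have h2 := read3 N j (N - i) y (by omega)
    rw [h] at h1
    have h3 : N - (N - i) = i := by omega
    rw [h3] at h1 h2
    have h4 := h1.symm.trans h2
    rcases hb : x.testBit i with _ | _
    · rcases hc : y.testBit i with _ | _
      · rfl
      · rw [hb, hc] at h4
        exact absurd (h4.2 rfl) (by decide)
    · exact (h4.1 hb).symm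
  · have hpow : 2 ^ (N + 1) ≤ 2 ^ i := Nat.pow_le_pow_right (by norm_num) (by omega)
    rw [Nat.testBit_lt_two_pow (lt_of_lt_of_le hx.1 hpow),
      Nat.testBit_lt_two_pow (lt_of_lt_of_le hy.1 hpow)]

theorem card3 (N j : ℕ) (hj1 : 1 ≤ j) (hj : j ≤ N) : (G3 N j).card + (j - 1) = 2 ^ (N + 1) := by
  have hinj : ((Finset.Ico 1 j).image (fun r => 2 ^ (r + 1) - 1)).card = j - 1 := by
    rw [Finset.card_image_of_injOn, Nat.card_Ico]
    intro r _ s _ h
    have h1 : 1 ≤ 2 ^ (r + 1) := Nat.one_le_two_pow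
    have h2 : 1 ≤ 2 ^ (s + 1) := Nat.one_le_two_pow
    have h3 : 2 ^ (r + 1) = 2 ^ (s + 1) := by
      simp only at h
      omega
    have := Nat.pow_right_injective (le_refl 2) h3
    omega
  have hsub : (Finset.Ico 1 j).image (fun r => 2 ^ (r + 1) - 1) ⊆ Finset.range (2 ^ (N + 1)) := by
    intro x hx
    rw [Finset.mem_image] at hx
    obtain ⟨r, hr, rfl⟩ := hx
    rw [Finset.mem_Ico] at hr
    rw [Finset.mem_range]
    have h1 : 1 ≤ 2 ^ (r + 1) := Nat.one_le_two_pow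
    have h2 : 2 ^ (r + 1) ≤ 2 ^ (N + 1) := Nat.pow_le_pow_right (by norm_num) (by omega)
    omega
  rw [G3]
  have h1 := Finset.card_sdiff_add_card_eq_card hsub
  rw [hinj, Finset.card_range] at h1
  exact h1

end Pool.Agent.H40.Magic
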