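import Pool.Agent.H40.Magic.Defs

/-!
# Combinatorial facts on `rot`, `be`, `E1` (designs 1 and 2)
-/

set_option autoImplicit false

namespace Pool.Agent.H40.Magic

variable {N : ℕ} (S : Sys N)

theorem rot_sub (T : Finset ℕ) (hT : ∀ i ∈ T, i < N) : ∀ i ∈ rot N T, i < N := by
  intro i hi
  unfold rot at hi
  rw [Finset.mem_image] at hi
  obtain ⟨j, hj, rfl⟩ := hi
  have := hT j hj
  split_ifs with h
  · omega
  · omega

theorem bc_sub (T : Finset ℕ) (hT : ∀ i ∈ T, i < N) (hq : S.q ∉ T) : ∀ i ∈ bc S.sg T, i < N := by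
  intro i hi
  unfold bc at hi
  rw [Finset.mem_insert, Finset.mem_image] at hi
  rcases hi with rfl | ⟨j, hj, rfl⟩
  · exact lt_of_le_of_lt (Nat.zero_le _) S.hq
  · exact (S.maps j (hT j hj) (fun h => hq (h ▸ hj))).2

theorem be_sub (T : Finset ℕ) (hT : ∀ i ∈ T, i < N) : ∀ i ∈ be S T, i < N := by
  unfold be
  split_ifs with h
  · intro i hi
    simp at hi
  · exact bc_sub S _ (fun i hi => hT i (Finset.mem_of_mem_erase hi)) (Finset.notMem_erase _ _)

theorem be_erase (T : Finset ℕ) : be S (T.erase S.q) = be S T := by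
  unfold be
  rw [Finset.erase_idem]

theorem be_mem_E1 (T : Finset ℕ) (hT : ∀ i ∈ T, i < N) : be S T ∈ E1 S := by
  unfold E1
  rw [Finset.mem_image]
  refine ⟨T.erase S.q, ?_, be_erase S T⟩
  rw [Finset.mem_powerset]
  exact Finset.erase_subset_erase _ fun i hi => Finset.mem_range.2 (hT i hi)

theorem zero_mem_bc (T : Finset ℕ) : 0 ∈ bc S.sg T := Finset.mem_insert_self _ _

theorem zero_notMem_image (T : Finset ℕ) (hT : ∀ i ∈ T, i < N) (h : S.q ∉ T) :
    0 ∉ T.image S.sg := by
  rw [Finset.mem_image]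
  rintro ⟨j, hj, hj0⟩
  have := (S.maps j (hT j hj) (fun h' => h (h' ▸ hj))).1
  omega

theorem injOn_sg (T : Finset ℕ) (hT : ∀ i ∈ T, i < N) (h : S.q ∉ T) :
    Set.InjOn S.sg (T : Set ℕ) := by
  intro i hi j hj hij
  rw [Finset.mem_coe] at hi hj
  exact S.inj i j (hT i hi) (fun h' => h (h' ▸ hi)) (hT j hj) (fun h' => h (h' ▸ hj)) hij

theorem bc_card (T : Finset ℕ) (hT : ∀ i ∈ T, i < N) (h : S.q ∉ T) :
    (bc S.sg T).card = T.card + 1 := by
  unfold bc
  rw [Finset.card_insert_of_notMem (zero_notMem_image S T hT h),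
    Finset.card_image_of_injOn (injOn_sg S T hT h)]

/-- a set containing `0` is the b-child of a set -/
theorem exists_bc (T : Finset ℕ) (hT : ∀ i ∈ T, i < N) (h0 : 0 ∈ T) :
    ∃ U : Finset ℕ, (∀ i ∈ U, i < N) ∧ S.q ∉ U ∧ bc S.sg U = T ∧ U.card + 1 = T.card := by
  have hU : ∀ i ∈ ((Finset.range N).erase S.q).filter (fun i => S.sg i ∈ T), i < N := by
    intro i hi
    rw [Finset.mem_filter, Finset.mem_erase, Finset.mem_range] at hi
    exact hi.1.2
  have hq : S.q ∉ ((Finset.range N).erase S.q).filter (fun i => S.sg i ∈ T) := by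
    rw [Finset.mem_filter, Finset.mem_erase]
    rintro ⟨⟨h, _⟩, _⟩
    exact h rfl
  have hb : bc S.sg (((Finset.range N).erase S.q).filter (fun i => S.sg i ∈ T)) = T := by
    ext i
    unfold bc
    rw [Finset.mem_insert, Finset.mem_image]
    constructor
    · rintro (rfl | ⟨j, hj, rfl⟩)
      · exact h0
      · exact (Finset.mem_filter.1 hj).2
    · intro hi
      rcases Nat.eq_zero_or_pos i with h | h
      · exact Or.inl h
      · obtain ⟨j, hj1, hj2, hj3⟩ := S.surj i h (hT i hi)
        refine Or.inr ⟨j, ?_, hj3⟩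
        rw [Finset.mem_filter, Finset.mem_erase, Finset.mem_range, hj3]
        exact ⟨⟨hj2, hj1⟩, hi⟩
  refine ⟨_, hU, hq, hb, ?_⟩
  rw [← bc_card S _ hU hq, hb]

theorem mem_E1 (T : Finset ℕ) :
    T ∈ E1 S ↔ (∀ i ∈ T, i < N) ∧ (T = ∅ ∨ (0 ∈ T ∧ T ≠ {0})) := by
  constructor
  · intro h
    unfold E1 at h
    rw [Finset.mem_image] at h
    obtain ⟨U, hU, rfl⟩ := h
    rw [Finset.mem_powerset] at hU
    have hU1 : ∀ i ∈ U, i < N := fun i hi => by
      have := hU hi
      rw [Finset.mem_erase, Finset.mem_range] at this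
      exact this.2
    refine ⟨be_sub S U hU1, ?_⟩
    unfold be
    split_ifs with h
    · exact Or.inl rfl
    · refine Or.inr ⟨zero_mem_bc S _, ?_⟩
      obtain ⟨j, hj⟩ := Finset.nonempty_iff_ne_empty.2 h
      intro h0
      have h1 : S.sg j ∈ bc S.sg (U.erase S.q) :=
        Finset.mem_insert_of_mem (Finset.mem_image_of_mem _ hj)
      rw [h0, Finset.mem_singleton] at h1
      have := (S.maps j (hU1 j (Finset.mem_of_mem_erase hj)) (Finset.ne_of_mem_erase hj)).1
      omega
  · rintro ⟨hT, h | ⟨h0, h1⟩⟩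
    · subst h
      unfold E1
      rw [Finset.mem_image]
      exact ⟨∅, Finset.empty_mem_powerset _, by simp [be]⟩
    · obtain ⟨U, hU1, hU2, hU3, _⟩ := exists_bc S T hT h0
      have hE : be S U = T := by
        unfold be
        rw [Finset.erase_eq_of_notMem hU2, if_neg, hU3]
        intro hU0
        subst hU0
        apply h1
        rw [← hU3]
        simp [bc]
      rw [← hE]
      exact be_mem_E1 S U hU1

/-- `be S` is injective on the subsets of `{0, ..., N-1}` minus `q` -/
theorem E1_card : (E1 S).card = 2 ^ (N - 1) := by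
  unfold E1
  rw [Finset.card_image_of_injOn, Finset.card_powerset, Finset.card_erase_of_mem
    (Finset.mem_range.2 S.hq), Finset.card_range]
  have key : ∀ U : Finset ℕ, U ∈ ((Finset.range N).erase S.q).powerset →
      (∀ i ∈ U, i < N) ∧ S.q ∉ U := by
    intro U hU
    rw [Finset.mem_powerset] at hU
    refine ⟨fun i hi => ?_, fun hq => ?_⟩
    · have := hU hi
      rw [Finset.mem_erase, Finset.mem_range] at this
      exact this.2
    · exact (Finset.notMem_erase _ _) (hU hq)
  intro U hU V hV hUV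
  rw [Finset.mem_coe] at hU hV
  obtain ⟨hU1, hU2⟩ := key U hU
  obtain ⟨hV1, hV2⟩ := key V hV
  simp only [be, Finset.erase_eq_of_notMem hU2, Finset.erase_eq_of_notMem hV2] at hUV
  by_cases hU0 : U = ∅
  · rw [if_pos hU0] at hUV
    by_cases hV0 : V = ∅
    · rw [hU0, hV0]
    · rw [if_neg hV0] at hUV
      exact absurd (zero_mem_bc S V) (by rw [← hUV]; simp)
  · rw [if_neg hU0] at hUV
    by_cases hV0 : V = ∅
    · rw [if_pos hV0] at hUV
      exact absurd (zero_mem_bc S U) (by rw [hUV]; simp)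
    · rw [if_neg hV0] at hUV
      have h1 : U.image S.sg = V.image S.sg := by
        have h2 := congrArg (fun X : Finset ℕ => X.erase 0) hUV
        simp only [bc] at h2
        rwa [Finset.erase_insert (zero_notMem_image S U hU1 hU2),
          Finset.erase_insert (zero_notMem_image S V hV1 hV2)] at h2
      ext i
      constructor
      · intro hi
        have h3 : S.sg i ∈ V.image S.sg := h1 ▸ Finset.mem_image_of_mem _ hi
        obtain ⟨j, hj, hij⟩ := Finset.mem_image.1 h3
        have := S.inj j i (hV1 j hj) (fun h => hV2 (h ▸ hj)) (hU1 i hi) (fun h => hU2 (h ▸ hi)) hij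
        exact this ▸ hj
      · intro hi
        have h3 : S.sg i ∈ U.image S.sg := h1.symm ▸ Finset.mem_image_of_mem _ hi
        obtain ⟨j, hj, hij⟩ := Finset.mem_image.1 h3
        have := S.inj j i (hU1 j hj) (fun h => hU2 (h ▸ hj)) (hV1 i hi) (fun h => hV2 (h ▸ hi)) hij
        exact this ▸ hj

theorem rot_eq_sh (T : Finset ℕ) (hT : ∀ i ∈ T, i < N) (h : N - 1 ∉ T) : rot N T = sh T := by
  unfold rot sh
  apply Finset.image_congr
  intro i hi
  rw [Finset.mem_coe] at hi
  have h1 := hT i hi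
  have h2 : i ≠ N - 1 := fun h' => h (h' ▸ hi)
  show (if i + 1 = N then 0 else i + 1) = i + 1
  rw [if_neg (by omega)]

theorem be_eq_bc (T : Finset ℕ) (hT : T.Nonempty) (h : S.q ∉ T) : be S T = bc S.sg T := by
  unfold be
  rw [Finset.erase_eq_of_notMem h, if_neg (Finset.nonempty_iff_ne_empty.1 hT)]

theorem sh_card (T : Finset ℕ) : (sh T).card = T.card :=
  Finset.card_image_of_injective _ (fun i j h => by simpa using h)

theorem rot_eq_mod (T : Finset ℕ) (hT : ∀ i ∈ T, i < N) :
    rot N T = T.image (fun i => (i + 1) % N) := by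
  unfold rot
  apply Finset.image_congr
  intro i hi
  rw [Finset.mem_coe] at hi
  have h1 := hT i hi
  show (if i + 1 = N then 0 else i + 1) = (i + 1) % N
  split_ifs with h
  · rw [h, Nat.mod_self]
  · rw [Nat.mod_eq_of_lt (by omega)]

theorem mod_inj {i j : ℕ} (hi : i < N) (hj : j < N) (h : (i + 1) % N = (j + 1) % N) : i = j := by
  rcases Nat.lt_or_ge (i + 1) N with h1 | h1
  · rcases Nat.lt_or_ge (j + 1) N with h2 | h2
    · rw [Nat.mod_eq_of_lt h1, Nat.mod_eq_of_lt h2] at h
      omega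
    · have h3 : j + 1 = N := by omega
      rw [Nat.mod_eq_of_lt h1, h3, Nat.mod_self] at h
      omega
  · have h4 : i + 1 = N := by omega
    rcases Nat.lt_or_ge (j + 1) N with h2 | h2
    · rw [Nat.mod_eq_of_lt h2, h4, Nat.mod_self] at h
      omega
    · omega

theorem rot_card (T : Finset ℕ) (hT : ∀ i ∈ T, i < N) : (rot N T).card = T.card := by
  rw [rot_eq_mod T hT]
  apply Finset.card_image_of_injOn
  intro i hi j hj hij
  exact mod_inj (hT i hi) (hT j hj) hij

/-- a set not containing `0` is the shift of a set -/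
theorem exists_sh (T : Finset ℕ) (hT : ∀ i ∈ T, i < N) (h0 : 0 ∉ T) :
    ∃ U : Finset ℕ, (∀ i ∈ U, i + 1 < N) ∧ sh U = T ∧ U.card = T.card := by
  have hb : sh ((Finset.range N).filter (fun i => i + 1 ∈ T)) = T := by
    ext i
    unfold sh
    rw [Finset.mem_image]
    constructor
    · rintro ⟨j, hj, rfl⟩
      exact (Finset.mem_filter.1 hj).2
    · intro hi
      have h1 : i ≠ 0 := fun h => h0 (h ▸ hi)
      have h2 := hT i hi
      have h3 : i - 1 + 1 = i := by omega
      refine ⟨i - 1, ?_, h3⟩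
      rw [Finset.mem_filter, Finset.mem_range, h3]
      exact ⟨by omega, hi⟩
  refine ⟨_, ?_, hb, ?_⟩
  · intro i hi
    exact hT _ (Finset.mem_filter.1 hi).2
  · rw [← sh_card, hb]

theorem rot_iter_sub (T : Finset ℕ) (hT : ∀ i ∈ T, i < N) (k : ℕ) :
    ∀ i ∈ (rot N)^[k] T, i < N := by
  induction k with
  | zero => exact hT
  | succ k ih =>
    rw [Function.iterate_succ_apply']
    exact rot_sub _ ih

/-- `k` rotations move `i` to `(i + k) % N` -/
theorem mem_rot_iter (T : Finset ℕ) (hT : ∀ i ∈ T, i < N) (k i : ℕ) (hi : i < N) :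
    (i + k) % N ∈ (rot N)^[k] T ↔ i ∈ T := by
  induction k with
  | zero => rw [Nat.add_zero, Nat.mod_eq_of_lt hi, Function.iterate_zero, id]
  | succ k ih =>
    rw [Function.iterate_succ_apply', ← ih, rot_eq_mod _ (rot_iter_sub T hT k), Finset.mem_image]
    have hN : 0 < N := by omega
    have hmod : (i + (k + 1)) % N = ((i + k) % N + 1) % N := by
      rw [Nat.mod_add_mod, Nat.add_assoc]
    constructor
    · rintro ⟨j, hj, hij⟩
      rw [hmod] at hij
      rw [← mod_inj (rot_iter_sub T hT k j hj) (Nat.mod_lt _ hN) hij]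
      exact hj
    · intro h
      exact ⟨(i + k) % N, h, hmod.symm⟩

theorem rot_iter_full (T : Finset ℕ) (hT : ∀ i ∈ T, i < N) : (rot N)^[N] T = T := by
  ext i
  by_cases hi : i < N
  · have h := mem_rot_iter T hT N i hi
    rwa [Nat.add_mod_right, Nat.mod_eq_of_lt hi] at h
  · exact ⟨fun h => absurd (rot_iter_sub T hT N i h) hi, fun h => absurd (hT i h) hi⟩

end Pool.Agent.H40.Magic
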