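import Pool.Agent.H94.Magic.Basic

/-!
# Binary magic numbers, upper half (MP_c3e474_lc, frozen statement S15326): definitions

Paper proof: proofs 218.  `Sys N`: a tree system on the data `{0, ..., N-1}`, i.e. a bijection `sg` from
`{0, ..., N-1}` minus `q` onto `{1, ..., N-1}` and a start `z`.  `IsFam S R`: `R` is the family of sets obtained from
`{z}` by the a-child `sh T` (if `N - 1` is not in `T`) and the b-child `bc sg T` (if `q` is not in `T`).
-/

set_option autoImplicit false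

namespace Pool.Agent.H40.Magic

/-- a tree system -/
structure Sys (N : ℕ) where
  sg : ℕ → ℕ
  q : ℕ
  z : ℕ
  hq : q < N
  hz : z < N
  maps : ∀ i, i < N → i ≠ q → 1 ≤ sg i ∧ sg i < N
  inj : ∀ i j, i < N → i ≠ q → j < N → j ≠ q → sg i = sg j → i = j
  surj : ∀ j, 1 ≤ j → j < N → ∃ i, i < N ∧ i ≠ q ∧ sg i = j

/-- the a-child (shift) -/
def sh (T : Finset ℕ) : Finset ℕ := T.image (fun i => i + 1)

/-- the b-child -/
def bc (sg : ℕ → ℕ) (T : Finset ℕ) : Finset ℕ := insert 0 (T.image sg)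

/-- `R` is the family of sets obtained from `{z}` by the two children -/
structure IsFam {N : ℕ} (S : Sys N) (R : Finset (Finset ℕ)) : Prop where
  root : {S.z} ∈ R
  sub : ∀ T ∈ R, ∀ i ∈ T, i < N
  ne : ∀ T ∈ R, T.Nonempty
  cla : ∀ T ∈ R, N - 1 ∉ T → sh T ∈ R
  clb : ∀ T ∈ R, S.q ∉ T → bc S.sg T ∈ R
  ind : ∀ P : Finset ℕ → Prop, P {S.z} → (∀ T ∈ R, P T → N - 1 ∉ T → P (sh T)) →
    (∀ T ∈ R, P T → S.q ∉ T → P (bc S.sg T)) → ∀ T ∈ R, P T

/-- the invariant `A + B = |R| + 1` -/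
def Inv {N : ℕ} (S : Sys N) (R : Finset (Finset ℕ)) : Prop :=
  (R.filter (fun T => N - 1 ∈ T)).card + (R.filter (fun T => S.q ∈ T)).card = R.card + 1

/-- codes: data set, mode `w1`, mode `w2`.  State `i < N` is data, state `N` is `w1`, state `N + 1` is `w2`. -/
def dec (N : ℕ) (c : Finset ℕ × Bool × Bool) : Set (Fin (N + 2)) :=
  {s | s.val ∈ c.1 ∨ (s.val = N ∧ c.2.1 = true) ∨ (s.val = N + 1 ∧ c.2.2 = true)}

/-- the number of left quotients of the language of `M` -/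
noncomputable def nq {σ : Type} (M : NFA (Fin 2) σ) : ℕ :=
  Nat.card (Set.range (fun u : List (Fin 2) =>
    ({w : List (Fin 2) | u ++ w ∈ M.accepts} : Set (List (Fin 2)))))

/-! ## Design 1: `alpha = 2 * 2 ^ N + |R|` -/

/-- transitions of design 1 -/
def tr1 {N : ℕ} (S : Sys N) (i : ℕ) (c : Fin 2) (j : ℕ) : Prop :=
  (c = 0 ∧ ((i + 1 < N ∧ j = i + 1) ∨ (i + 1 = N ∧ (j = 0 ∨ j = N + 1)) ∨
    ((i = N ∨ i = N + 1) ∧ j = N + 1))) ∨
  (c = 1 ∧ ((i < N ∧ i ≠ S.q ∧ (j = S.sg i ∨ j = 0)) ∨ (i = S.q ∧ j = N + 1) ∨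
    (i = N ∧ j = N + 1) ∨ (i = N + 1 ∧ j = N)))

/-- design 1 -/
def M1 {N : ℕ} (S : Sys N) : NFA (Fin 2) (Fin (N + 2)) where
  step s c := {t | tr1 S s.val c t.val}
  start := {s | s.val = S.z}
  accept := {s | s.val = N}

/-- the rotation of the data -/
def rot (N : ℕ) (T : Finset ℕ) : Finset ℕ := T.image (fun i => if i + 1 = N then 0 else i + 1)

/-- letter b on the data (design 1) -/
def be {N : ℕ} (S : Sys N) (T : Finset ℕ) : Finset ℕ :=
  if T.erase S.q = ∅ then ∅ else bc S.sg (T.erase S.q)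

/-- the data sets in the modes with `w1` -/
def E1 {N : ℕ} (S : Sys N) : Finset (Finset ℕ) := ((Finset.range N).erase S.q).powerset.image (be S)

/-- the codes of the reachable sets of design 1 -/
def G1 {N : ℕ} (S : Sys N) (R : Finset (Finset ℕ)) : Finset (Finset ℕ × Bool × Bool) :=
  (R.image (fun T => (T, false, false))) ∪ ((Finset.range N).powerset.image (fun T => (T, false, true))) ∪
  ((E1 S).image (fun T => (T, true, false))) ∪ ((E1 S).image (fun T => (T, true, true)))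

/-! ## Design 2: `alpha = 3 * 2 ^ N - N + |R|` -/

/-- transitions of design 2 -/
def tr2 {N : ℕ} (S : Sys N) (i : ℕ) (c : Fin 2) (j : ℕ) : Prop :=
  (c = 0 ∧ ((i + 1 < N ∧ j = i + 1) ∨ (i + 1 = N ∧ j = N + 1) ∨ (i = N ∧ j = N) ∨
    (i = N + 1 ∧ j = N + 1))) ∨
  (c = 1 ∧ ((i < N ∧ i ≠ S.q ∧ (j = S.sg i ∨ j = 0)) ∨ (i = S.q ∧ j = N + 1) ∨
    (i = N ∧ (j = N + 1 ∨ j = 0)) ∨ (i = N + 1 ∧ j = N)))

/-- design 2 -/
def M2 {N : ℕ} (S : Sys N) : NFA (Fin 2) (Fin (N + 2)) where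
  step s c := {t | tr2 S s.val c t.val}
  start := {s | s.val = S.z}
  accept := {s | s.val + 1 = N}

/-- letter b on the data (design 2) -/
def be2 {N : ℕ} (S : Sys N) (T : Finset ℕ) (m1 : Bool) : Finset ℕ :=
  if T.erase S.q = ∅ ∧ m1 = false then ∅ else bc S.sg (T.erase S.q)

/-- the codes of the reachable sets of design 2 -/
def G2 {N : ℕ} (R : Finset (Finset ℕ)) : Finset (Finset ℕ × Bool × Bool) :=
  (R.image (fun T => (T, false, false))) ∪ ((Finset.range N).powerset.image (fun T => (T, false, true))) ∪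
  (((Finset.range N).powerset.filter (fun T => T.card ≠ 1)).image (fun T => (T, true, false))) ∪
  ((Finset.range N).powerset.image (fun T => (T, true, true)))

/-! ## Top family: `alpha = 2 ^ n - (j - 1)` with `n = N + 1` states -/

/-- transitions of the top family -/
def tr3 (N j : ℕ) (i : ℕ) (c : Fin 2) (k : ℕ) : Prop :=
  (c = 0 ∧ k = i + 1) ∨
  (c = 1 ∧ ((i = 0 ∧ k = 1) ∨ (1 ≤ i ∧ i < N ∧ (k = 0 ∨ k = i + 1)) ∨ (i = N ∧ k ≤ j)))

/-- top family -/
def M3 (N j : ℕ) : NFA (Fin 2) (Fin (N + 1)) where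
  step s c := {t | tr3 N j s.val c t.val}
  start := {s | s.val = 0}
  accept := {s | s.val = N}

/-- codes of the top family: numbers below `2 ^ (N + 1)`, the set of the positions of the binary digits 1 -/
def dec3 (N : ℕ) (x : ℕ) : Set (Fin (N + 1)) := {s | x.testBit s.val = true}

/-- the codes of the reachable sets of the top family -/
def G3 (N j : ℕ) : Finset ℕ :=
  Finset.range (2 ^ (N + 1)) \ (Finset.Ico 1 j).image (fun r => 2 ^ (r + 1) - 1)

end Pool.Agent.H40.Magic
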