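import Pool.Agent.H40.Magic.Comb
import Pool.Agent.H40.Magic.Step1

/-!
# Design 1: the codes in `G1` are pairwise inequivalent

Acceptance is `m1 = true` (`nil1`).  Use `NFA.cons_mem_acceptsFrom` to read letters.
`(T, true, false)` against `(T', true, true)`: letter b gives `m1 = false` against `m1 = true`.
`(T, false, true)` against `(T', false, true)`, `i ∈ T`, `i ∉ T'`: choose `k` with `(i + k) % N = q`, word `a^k b b`.
`(T, true, m)` against `(T', true, m)`: letter a, then the previous case (the rotation is injective).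
`(T, false, false)` against `(T', false, true)`: letter b.
`(T, false, false)` against `(T', false, false)` (`T`, `T'` nonempty, in `R`): the word `a^N` gives `(T, false, true)`,
`(T', false, true)`.
-/

set_option autoImplicit false

namespace Pool.Agent.H40.Magic

/-- letter a on the codes of design 1 -/
def A1 (N : ℕ) (c : Finset ℕ × Bool × Bool) : Finset ℕ × Bool × Bool :=
  (rot N c.1, false, c.2.1 || c.2.2 || decide (N - 1 ∈ c.1))

/-- equivalence of codes, design 1 -/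
def Eqv1 {N : ℕ} (S : Sys N) (c c' : Finset ℕ × Bool × Bool) : Prop :=
  (∀ i ∈ c.1, i < N) ∧ (∀ i ∈ c'.1, i < N) ∧
    (M1 S).acceptsFrom (dec N c) = (M1 S).acceptsFrom (dec N c')

theorem Eqv1.m1 {N : ℕ} {S : Sys N} {c c' : Finset ℕ × Bool × Bool} (h : Eqv1 S c c') :
    c.2.1 = c'.2.1 := by
  obtain ⟨T, m1, m2⟩ := c
  obtain ⟨T', m1', m2'⟩ := c'
  obtain ⟨h1, h2, h3⟩ := h
  have e1 := nil1 S T h1 m1 m2
  have e2 := nil1 S T' h2 m1' m2'
  rw [h3] at e1
  have := e1.symm.trans e2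
  change m1 = m1'
  rcases m1 with _ | _ <;> rcases m1' with _ | _ <;> simp_all

theorem Eqv1.a {N : ℕ} {S : Sys N} {c c' : Finset ℕ × Bool × Bool} (h : Eqv1 S c c') :
    Eqv1 S (A1 N c) (A1 N c') := by
  obtain ⟨T, m1, m2⟩ := c
  obtain ⟨T', m1', m2'⟩ := c'
  obtain ⟨h1, h2, h3⟩ := h
  refine ⟨rot_sub T h1, rot_sub T' h2, ?_⟩
  change (M1 S).acceptsFrom (dec N (rot N T, false, m1 || m2 || decide (N - 1 ∈ T))) =
    (M1 S).acceptsFrom (dec N (rot N T', false, m1' || m2' || decide (N - 1 ∈ T')))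
  rw [← step1_a S T h1, ← step1_a S T' h2]
  ext w
  have := Set.ext_iff.1 h3 (0 :: w)
  exact (NFA.cons_mem_acceptsFrom _).symm.trans (this.trans (NFA.cons_mem_acceptsFrom _))

theorem Eqv1.b {N : ℕ} {S : Sys N} {c c' : Finset ℕ × Bool × Bool} (h : Eqv1 S c c') :
    Eqv1 S (be S c.1, c.2.2, c.2.1 || decide (S.q ∈ c.1))
      (be S c'.1, c'.2.2, c'.2.1 || decide (S.q ∈ c'.1)) := by
  obtain ⟨T, m1, m2⟩ := c
  obtain ⟨T', m1', m2'⟩ := c'
  obtain ⟨h1, h2, h3⟩ := h
  refine ⟨be_sub S T h1, be_sub S T' h2, ?_⟩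
  change (M1 S).acceptsFrom (dec N (be S T, m2, m1 || decide (S.q ∈ T))) =
    (M1 S).acceptsFrom (dec N (be S T', m2', m1' || decide (S.q ∈ T')))
  rw [← step1_b S T h1, ← step1_b S T' h2]
  ext w
  have := Set.ext_iff.1 h3 (1 :: w)
  exact (NFA.cons_mem_acceptsFrom _).symm.trans (this.trans (NFA.cons_mem_acceptsFrom _))

theorem Eqv1.m2 {N : ℕ} {S : Sys N} {c c' : Finset ℕ × Bool × Bool} (h : Eqv1 S c c') :
    c.2.2 = c'.2.2 := h.b.m1

theorem Eqv1.iter {N : ℕ} {S : Sys N} {c c' : Finset ℕ × Bool × Bool} (h : Eqv1 S c c') (k : ℕ) :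
    Eqv1 S ((A1 N)^[k] c) ((A1 N)^[k] c') := by
  induction k with
  | zero => exact h
  | succ k ih =>
    rw [Function.iterate_succ_apply', Function.iterate_succ_apply']
    exact ih.a

theorem A1_fst (N k : ℕ) (c : Finset ℕ × Bool × Bool) : ((A1 N)^[k] c).1 = (rot N)^[k] c.1 := by
  induction k with
  | zero => rfl
  | succ k ih =>
    rw [Function.iterate_succ_apply', Function.iterate_succ_apply', ← ih]
    rfl

theorem A1_m1 (N k : ℕ) (hk : 1 ≤ k) (c : Finset ℕ × Bool × Bool) : ((A1 N)^[k] c).2.1 = false := by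
  obtain ⟨l, rfl⟩ : ∃ l, k = l + 1 := ⟨k - 1, by omega⟩
  rw [Function.iterate_succ_apply']
  rfl

theorem A1_m2_step (N : ℕ) (c : Finset ℕ × Bool × Bool)
    (h : c.2.1 = true ∨ c.2.2 = true ∨ N - 1 ∈ c.1) : (A1 N c).2.2 = true := by
  change (c.2.1 || c.2.2 || decide (N - 1 ∈ c.1)) = true
  rcases h with h | h | h
  · rw [h]; simp
  · rw [h]; simp
  · simp [h]

theorem A1_m2_mono (N k : ℕ) (c : Finset ℕ × Bool × Bool) (h : c.2.2 = true) :
    ((A1 N)^[k] c).2.2 = true := by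
  induction k with
  | zero => exact h
  | succ k ih =>
    rw [Function.iterate_succ_apply']
    exact A1_m2_step N _ (Or.inr (Or.inl ih))

theorem A1_full {N : ℕ} (hN : 1 ≤ N) (c : Finset ℕ × Bool × Bool) (hc : ∀ i ∈ c.1, i < N)
    (h : c.2.1 = true ∨ c.2.2 = true ∨ c.1.Nonempty) : (A1 N)^[N] c = (c.1, false, true) := by
  have e1 : ((A1 N)^[N] c).1 = c.1 := by rw [A1_fst, rot_iter_full c.1 hc]
  have e2 : ((A1 N)^[N] c).2.1 = false := A1_m1 N N hN c
  have key : ∃ l, l < N ∧ (((A1 N)^[l] c).2.1 = true ∨ ((A1 N)^[l] c).2.2 = true ∨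
      N - 1 ∈ ((A1 N)^[l] c).1) := by
    rcases h with h | h | ⟨i, hi⟩
    · exact ⟨0, hN, Or.inl h⟩
    · exact ⟨0, hN, Or.inr (Or.inl h)⟩
    · have hiN := hc i hi
      refine ⟨N - 1 - i, by omega, Or.inr (Or.inr ?_)⟩
      rw [A1_fst]
      have := (mem_rot_iter c.1 hc (N - 1 - i) i hiN).2 hi
      have e : (i + (N - 1 - i)) % N = N - 1 := by
        have : i + (N - 1 - i) = N - 1 := by omega
        rw [this]
        exact Nat.mod_eq_of_lt (by omega)
      rwa [e] at this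
  have e3 : ((A1 N)^[N] c).2.2 = true := by
    obtain ⟨l, hl, hl'⟩ := key
    have hN' : N = (N - 1 - l) + (l + 1) := by omega
    have e4 : (A1 N)^[N] c = (A1 N)^[N - 1 - l] ((A1 N)^[l + 1] c) := by
      rw [← Function.iterate_add_apply, ← hN']
    rw [e4]
    apply A1_m2_mono
    rw [Function.iterate_succ_apply']
    exact A1_m2_step N _ hl'
  exact Prod.ext e1 (Prod.ext e2 e3)

theorem Eqv1.data {N : ℕ} {S : Sys N} {T T' : Finset ℕ}
    (h : Eqv1 S (T, false, true) (T', false, true)) : T = T' := by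
  have h1 : ∀ i ∈ T, i < N := h.1
  have h2 : ∀ i ∈ T', i < N := h.2.1
  have key : ∀ i, i < N → (i ∈ T ↔ i ∈ T') := by
    intro i hi
    have hq := S.hq
    have h3 := h.iter (S.q + N - i)
    have h4 := h3.b.m2
    have e := h3.m1
    change (((A1 N)^[S.q + N - i] (T, false, true)).2.1 ||
      decide (S.q ∈ ((A1 N)^[S.q + N - i] (T, false, true)).1)) =
      (((A1 N)^[S.q + N - i] (T', false, true)).2.1 ||
      decide (S.q ∈ ((A1 N)^[S.q + N - i] (T', false, true)).1)) at h4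
    rw [A1_m1 N _ (by omega), A1_m1 N _ (by omega), A1_fst, A1_fst] at h4
    simp only [Bool.false_or, decide_eq_decide] at h4
    have e1 := mem_rot_iter T h1 (S.q + N - i) i hi
    have e2 := mem_rot_iter T' h2 (S.q + N - i) i hi
    have e3 : (i + (S.q + N - i)) % N = S.q := by
      have : i + (S.q + N - i) = S.q + N := by omega
      rw [this, Nat.add_mod_right]
      exact Nat.mod_eq_of_lt hq
    rw [e3] at e1 e2
    exact e1.symm.trans (h4.trans e2)
  ext i
  constructor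
  · intro hi
    exact (key i (h1 i hi)).1 hi
  · intro hi
    exact (key i (h2 i hi)).2 hi

theorem G1_good {N : ℕ} (S : Sys N) (R : Finset (Finset ℕ)) (h : IsFam S R)
    (c : Finset ℕ × Bool × Bool) (hc : c ∈ G1 S R) :
    (∀ i ∈ c.1, i < N) ∧ (c.2.1 = true ∨ c.2.2 = true ∨ c.1.Nonempty) := by
  simp only [G1, Finset.mem_union, Finset.mem_image, Finset.mem_powerset] at hc
  rcases hc with ((⟨T, hT, rfl⟩ | ⟨T, hT, rfl⟩) | ⟨T, hT, rfl⟩) | ⟨T, hT, rfl⟩
  · exact ⟨h.sub T hT, Or.inr (Or.inr (h.ne T hT))⟩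
  · exact ⟨fun i hi => Finset.mem_range.1 (hT hi), Or.inr (Or.inl rfl)⟩
  · exact ⟨((mem_E1 S T).1 hT).1, Or.inl rfl⟩
  · exact ⟨((mem_E1 S T).1 hT).1, Or.inl rfl⟩

theorem dist1 {N : ℕ} (S : Sys N) (R : Finset (Finset ℕ)) (h : IsFam S R) :
    ∀ c ∈ G1 S R, ∀ c' ∈ G1 S R,
      (M1 S).acceptsFrom (dec N c) = (M1 S).acceptsFrom (dec N c') → c = c' := by
  intro c hc c' hc' he
  obtain ⟨h1, h2⟩ := G1_good S R h c hc
  obtain ⟨h1', h2'⟩ := G1_good S R h c' hc'
  have hE : Eqv1 S c c' := ⟨h1, h1', he⟩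
  have hN : 1 ≤ N := lt_of_le_of_lt (Nat.zero_le _) S.hq
  have h3 := hE.iter N
  rw [A1_full hN c h1 h2, A1_full hN c' h1' h2'] at h3
  exact Prod.ext h3.data (Prod.ext hE.m1 hE.m2)

end Pool.Agent.H40.Magic
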