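import Pool.Agent.H40.Magic.Comb
import Pool.Agent.H40.Magic.Step2

/-!
# Design 2: the codes in `G2` (in fact all codes except perhaps none) are pairwise inequivalent

Acceptance is `N - 1 ∈ T` (`nil2`).  Data: `a^k` with `k = N - 1 - i` reads `i ∈ T`, so equivalent codes have the same `T`.
Same `T`, `m1 ≠ m1'`: if `T = ∅`, letter b gives data `{0}` against `∅` (use: both `(∅, false, ..)` codes give `∅`);
if `T` is nonempty, `a^N` gives `(∅, true, true)` against `(∅, false, true)`.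
Same `T`, same `m1`, `m2 ≠ m2'`: letter b gives the same data and modes `m1` different: previous case.
-/

set_option autoImplicit false

namespace Pool.Agent.H40.Magic

/-- letter a on the codes of design 2 -/
def A2 (N : ℕ) (c : Finset ℕ × Bool × Bool) : Finset ℕ × Bool × Bool :=
  (sh (c.1.erase (N - 1)), c.2.1, c.2.2 || decide (N - 1 ∈ c.1))

/-- equivalence of codes, design 2 -/
def Eqv2 {N : ℕ} (S : Sys N) (c c' : Finset ℕ × Bool × Bool) : Prop :=
  (∀ i ∈ c.1, i < N) ∧ (∀ i ∈ c'.1, i < N) ∧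
    (M2 S).acceptsFrom (dec N c) = (M2 S).acceptsFrom (dec N c')

theorem sh_erase_sub {N : ℕ} (T : Finset ℕ) (hT : ∀ i ∈ T, i < N) :
    ∀ i ∈ sh (T.erase (N - 1)), i < N := by
  intro i hi
  rw [sh, Finset.mem_image] at hi
  obtain ⟨k, hk, rfl⟩ := hi
  rw [Finset.mem_erase] at hk
  have := hT k hk.2
  omega

theorem be2_sub {N : ℕ} (S : Sys N) (T : Finset ℕ) (hT : ∀ i ∈ T, i < N) (m : Bool) :
    ∀ i ∈ be2 S T m, i < N := by
  rw [be2]
  split_ifs
  · intro i hi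
    exact absurd hi (Finset.notMem_empty i)
  · exact bc_sub S (T.erase S.q) (fun i hi => hT i (Finset.mem_of_mem_erase hi))
      (Finset.notMem_erase _ _)

theorem Eqv2.a {N : ℕ} {S : Sys N} {c c' : Finset ℕ × Bool × Bool} (h : Eqv2 S c c') :
    Eqv2 S (A2 N c) (A2 N c') := by
  obtain ⟨T, m1, m2⟩ := c
  obtain ⟨T', m1', m2'⟩ := c'
  obtain ⟨h1, h2, h3⟩ := h
  refine ⟨sh_erase_sub T h1, sh_erase_sub T' h2, ?_⟩
  change (M2 S).acceptsFrom (dec N (sh (T.erase (N - 1)), m1, m2 || decide (N - 1 ∈ T))) =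
    (M2 S).acceptsFrom (dec N (sh (T'.erase (N - 1)), m1', m2' || decide (N - 1 ∈ T')))
  rw [← step2_a S T h1, ← step2_a S T' h2]
  ext w
  have := Set.ext_iff.1 h3 (0 :: w)
  exact (NFA.cons_mem_acceptsFrom _).symm.trans (this.trans (NFA.cons_mem_acceptsFrom _))

theorem Eqv2.b {N : ℕ} {S : Sys N} {c c' : Finset ℕ × Bool × Bool} (h : Eqv2 S c c') :
    Eqv2 S (be2 S c.1 c.2.1, c.2.2, c.2.1 || decide (S.q ∈ c.1))
      (be2 S c'.1 c'.2.1, c'.2.2, c'.2.1 || decide (S.q ∈ c'.1)) := by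
  obtain ⟨T, m1, m2⟩ := c
  obtain ⟨T', m1', m2'⟩ := c'
  obtain ⟨h1, h2, h3⟩ := h
  refine ⟨be2_sub S T h1 m1, be2_sub S T' h2 m1', ?_⟩
  change (M2 S).acceptsFrom (dec N (be2 S T m1, m2, m1 || decide (S.q ∈ T))) =
    (M2 S).acceptsFrom (dec N (be2 S T' m1', m2', m1' || decide (S.q ∈ T')))
  rw [← step2_b S T h1, ← step2_b S T' h2]
  ext w
  have := Set.ext_iff.1 h3 (1 :: w)
  exact (NFA.cons_mem_acceptsFrom _).symm.trans (this.trans (NFA.cons_mem_acceptsFrom _))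

theorem Eqv2.top {N : ℕ} {S : Sys N} {c c' : Finset ℕ × Bool × Bool} (h : Eqv2 S c c') :
    N - 1 ∈ c.1 ↔ N - 1 ∈ c'.1 := by
  obtain ⟨T, m1, m2⟩ := c
  obtain ⟨T', m1', m2'⟩ := c'
  obtain ⟨h1, h2, h3⟩ := h
  have e1 := nil2 S T h1 m1 m2
  have e2 := nil2 S T' h2 m1' m2'
  rw [h3] at e1
  exact e1.symm.trans e2

theorem Eqv2.iter {N : ℕ} {S : Sys N} {c c' : Finset ℕ × Bool × Bool} (h : Eqv2 S c c') (k : ℕ) :
    Eqv2 S ((A2 N)^[k] c) ((A2 N)^[k] c') := by
  induction k with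
  | zero => exact h
  | succ k ih =>
    rw [Function.iterate_succ_apply', Function.iterate_succ_apply']
    exact ih.a

theorem A2_read (N k i : ℕ) (hi : i + k < N) (c : Finset ℕ × Bool × Bool) :
    i + k ∈ ((A2 N)^[k] c).1 ↔ i ∈ c.1 := by
  induction k with
  | zero => exact Iff.rfl
  | succ k ih =>
    rw [Function.iterate_succ_apply', ← ih (by omega)]
    change i + (k + 1) ∈ sh (((A2 N)^[k] c).1.erase (N - 1)) ↔ _
    rw [sh, Finset.mem_image]
    constructor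
    · rintro ⟨l, hl, he⟩
      have : l = i + k := by omega
      rw [← this]
      exact Finset.mem_of_mem_erase hl
    · intro h
      exact ⟨i + k, Finset.mem_erase.2 ⟨by omega, h⟩, rfl⟩

theorem A2_low (N k : ℕ) (c : Finset ℕ × Bool × Bool) (hc : ∀ i ∈ c.1, i < N) :
    ∀ i ∈ ((A2 N)^[k] c).1, k ≤ i ∧ i < N := by
  induction k with
  | zero => exact fun i hi => ⟨Nat.zero_le _, hc i hi⟩
  | succ k ih =>
    rw [Function.iterate_succ_apply']
    change ∀ i ∈ sh (((A2 N)^[k] c).1.erase (N - 1)), _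
    intro i hi
    have h1 := sh_erase_sub _ (fun i hi => (ih i hi).2) i hi
    rw [sh, Finset.mem_image] at hi
    obtain ⟨l, hl, rfl⟩ := hi
    have := (ih l (Finset.mem_of_mem_erase hl)).1
    exact ⟨by omega, h1⟩

theorem A2_m1 (N k : ℕ) (c : Finset ℕ × Bool × Bool) : ((A2 N)^[k] c).2.1 = c.2.1 := by
  induction k with
  | zero => rfl
  | succ k ih =>
    rw [Function.iterate_succ_apply', ← ih]
    rfl

theorem Eqv2.data {N : ℕ} {S : Sys N} {c c' : Finset ℕ × Bool × Bool} (h : Eqv2 S c c') :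
    c.1 = c'.1 := by
  have key : ∀ i, i < N → (i ∈ c.1 ↔ i ∈ c'.1) := by
    intro i hi
    have h1 := (h.iter (N - 1 - i)).top
    have e1 := A2_read N (N - 1 - i) i (by omega) c
    have e2 := A2_read N (N - 1 - i) i (by omega) c'
    have e : i + (N - 1 - i) = N - 1 := by omega
    rw [e] at e1 e2
    exact e1.symm.trans (h1.trans e2)
  ext i
  constructor
  · intro hi
    exact (key i (h.1 i hi)).1 hi
  · intro hi
    exact (key i (h.2.1 i hi)).2 hi

theorem Eqv2.m1 {N : ℕ} {S : Sys N} {c c' : Finset ℕ × Bool × Bool} (h : Eqv2 S c c') :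
    c.2.1 = c'.2.1 := by
  have h1 := h.iter N
  have emp : ∀ d : Finset ℕ × Bool × Bool, (∀ i ∈ d.1, i < N) → ((A2 N)^[N] d).1 = ∅ := by
    intro d hd
    rw [Finset.eq_empty_iff_forall_notMem]
    intro i hi
    have := A2_low N N d hd i hi
    omega
  have h2 := h1.b.data
  change be2 S ((A2 N)^[N] c).1 ((A2 N)^[N] c).2.1 = be2 S ((A2 N)^[N] c').1 ((A2 N)^[N] c').2.1 at h2
  rw [emp c h.1, emp c' h.2.1, A2_m1, A2_m1] at h2
  have b0 : be2 S ∅ false = ∅ := by
    rw [be2, if_pos ⟨Finset.erase_empty _, rfl⟩]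
  have b1 : (0 : ℕ) ∈ be2 S ∅ true := by
    rw [be2, if_neg (by simp), bc]
    exact Finset.mem_insert_self _ _
  rcases hc : c.2.1 with _ | _ <;> rcases hc' : c'.2.1 with _ | _
  · rfl
  · rw [hc, hc', b0] at h2
    rw [← h2] at b1
    exact absurd b1 (Finset.notMem_empty _)
  · rw [hc, hc', b0] at h2
    rw [h2] at b1
    exact absurd b1 (Finset.notMem_empty _)
  · rfl

theorem Eqv2.m2 {N : ℕ} {S : Sys N} {c c' : Finset ℕ × Bool × Bool} (h : Eqv2 S c c') :
    c.2.2 = c'.2.2 := h.b.m1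

theorem G2_good {N : ℕ} (S : Sys N) (R : Finset (Finset ℕ)) (h : IsFam S R)
    (c : Finset ℕ × Bool × Bool) (hc : c ∈ G2 (N := N) R) : ∀ i ∈ c.1, i < N := by
  simp only [G2, Finset.mem_union, Finset.mem_image, Finset.mem_filter, Finset.mem_powerset] at hc
  rcases hc with ((⟨T, hT, rfl⟩ | ⟨T, hT, rfl⟩) | ⟨T, hT, rfl⟩) | ⟨T, hT, rfl⟩
  · exact h.sub T hT
  · exact fun i hi => Finset.mem_range.1 (hT hi)
  · exact fun i hi => Finset.mem_range.1 (hT.1 hi)
  · exact fun i hi => Finset.mem_range.1 (hT hi)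

theorem dist2 {N : ℕ} (S : Sys N) (R : Finset (Finset ℕ)) (h : IsFam S R) :
    ∀ c ∈ G2 (N := N) R, ∀ c' ∈ G2 (N := N) R,
      (M2 S).acceptsFrom (dec N c) = (M2 S).acceptsFrom (dec N c') → c = c' := by
  intro c hc c' hc' he
  have hE : Eqv2 S c c' := ⟨G2_good S R h c hc, G2_good S R h c' hc', he⟩
  exact Prod.ext hE.data (Prod.ext hE.m1 hE.m2)

end Pool.Agent.H40.Magic
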