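import Pool.Agent.H40.Magic.Comb
import Pool.Agent.H40.Magic.Step1

/-!
# Design 1: all codes in `G1` are reachable

`(T, false, false)`, `T ∈ R`: `h.ind`.  `({0}, false, true)` from the start by `a^(N-z)`; all singletons by rotation.
`(T, false, true)` with `|T| ≥ 2`: rotate so that `1 ∈ T`; then `T = rot N (bc S.sg U)` with `U` nonempty, `q ∉ U`,
`|U| = |T| - 1`, word `ba` from `(U, false, true)` (b: `(bc S.sg U, true, false)`, a: `(rot .., false, true)`).
(For `N = 1` there are no such `T`.)  `(∅, false, true)`: `ba` from `({q}, false, true)`.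
`(T, true, false)`, `T = be S U`, `q ∉ U`: b from `(U, false, true)`; `(T, true, true)`: b from `(insert q U, false, true)`.
-/

set_option autoImplicit false

namespace Pool.Agent.H40.Magic

section Reach1

variable {N : ℕ} (S : Sys N)

/-- reachable code -/
def Rch1 (c : Finset ℕ × Bool × Bool) : Prop := ∃ u : List (Fin 2), (M1 S).eval u = dec N c

theorem rch1_a (T : Finset ℕ) (hT : ∀ i ∈ T, i < N) (m1 m2 : Bool) (h : Rch1 S (T, m1, m2)) :
    Rch1 S (rot N T, false, m1 || m2 || decide (N - 1 ∈ T)) := by
  obtain ⟨u, hu⟩ := h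
  refine ⟨u ++ [0], ?_⟩
  rw [NFA.eval_append_singleton, hu, step1_a S T hT]

theorem rch1_b (T : Finset ℕ) (hT : ∀ i ∈ T, i < N) (m1 m2 : Bool) (h : Rch1 S (T, m1, m2)) :
    Rch1 S (be S T, m2, m1 || decide (S.q ∈ T)) := by
  obtain ⟨u, hu⟩ := h
  refine ⟨u ++ [1], ?_⟩
  rw [NFA.eval_append_singleton, hu, step1_b S T hT]

theorem rch1_rot (T : Finset ℕ) (hT : ∀ i ∈ T, i < N) (h : Rch1 S (T, false, true)) :
    Rch1 S (rot N T, false, true) := by
  have := rch1_a S T hT false true h
  simpa using this

theorem rch1_rot_iter (T : Finset ℕ) (hT : ∀ i ∈ T, i < N) (h : Rch1 S (T, false, true)) (k : ℕ) :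
    (∀ i ∈ (rot N)^[k] T, i < N) ∧ Rch1 S ((rot N)^[k] T, false, true) := by
  induction k with
  | zero => exact ⟨hT, h⟩
  | succ k ih =>
    rw [Function.iterate_succ_apply']
    exact ⟨rot_sub _ ih.1, rch1_rot S _ ih.1 ih.2⟩

theorem rot_iter_subR (T : Finset ℕ) (hT : ∀ i ∈ T, i < N) (k : ℕ) :
    ∀ i ∈ (rot N)^[k] T, i < N := by
  induction k with
  | zero => exact hT
  | succ k ih =>
    rw [Function.iterate_succ_apply']
    exact rot_sub _ ih

theorem rot_iter_card (T : Finset ℕ) (hT : ∀ i ∈ T, i < N) (k : ℕ) :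
    ((rot N)^[k] T).card = T.card := by
  induction k with
  | zero => rfl
  | succ k ih =>
    rw [Function.iterate_succ_apply', rot_card _ (rot_iter_subR T hT k), ih]

theorem rot_iter_mul (T : Finset ℕ) (hT : ∀ i ∈ T, i < N) (k : ℕ) : (rot N)^[N * k] T = T := by
  induction k with
  | zero => rfl
  | succ k ih => rw [Nat.mul_succ, Function.iterate_add_apply, rot_iter_full T hT, ih]

theorem rch1_unrot (T : Finset ℕ) (hT : ∀ i ∈ T, i < N) (hN : 1 ≤ N) (k : ℕ)
    (h : Rch1 S ((rot N)^[k] T, false, true)) : Rch1 S (T, false, true) := by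
  have h1 := (rch1_rot_iter S _ (rot_iter_subR T hT k) h (N * k - k)).2
  rw [← Function.iterate_add_apply, Nat.sub_add_cancel (Nat.le_mul_of_pos_left k hN),
    rot_iter_mul T hT k] at h1
  exact h1

theorem rot_singleton (i : ℕ) : rot N {i} = {if i + 1 = N then 0 else i + 1} := by
  simp [rot]

theorem rch1_start : Rch1 S ({S.z}, false, false) := ⟨[], by rw [start1]; rfl⟩

theorem rch1_up (i : ℕ) (h1 : S.z ≤ i) (h2 : i < N) : Rch1 S ({i}, false, false) := by
  induction i, h1 using Nat.le_induction with
  | base => exact rch1_start S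
  | succ i hi ih =>
    have h := rch1_a S {i} (by simp; omega) false false (ih (by omega))
    rw [rot_singleton, if_neg (by omega)] at h
    have h3 : ¬ (N - 1 ∈ ({i} : Finset ℕ)) := by simp; omega
    simpa [h3] using h

theorem rch1_zero : Rch1 S ({0}, false, true) := by
  have hz := S.hz
  have h := rch1_a S {N - 1} (by simp; omega) false false (rch1_up S (N - 1) (by omega) (by omega))
  rw [rot_singleton, if_pos (by omega)] at h
  simpa using h

theorem rch1_single (i : ℕ) (hi : i < N) : Rch1 S ({i}, false, true) := by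
  induction i with
  | zero => exact rch1_zero S
  | succ i ih =>
    have h := rch1_rot S {i} (by simp; omega) (ih (by omega))
    rwa [rot_singleton, if_neg (by omega)] at h

theorem rch1_empty : Rch1 S (∅, false, true) := by
  have hq := S.hq
  have h := rch1_b S {S.q} (by simp [hq]) false true (rch1_single S S.q hq)
  have h1 : be S {S.q} = ∅ := by simp [be]
  rw [h1] at h
  have h2 := rch1_a S ∅ (by simp) _ _ h
  have h3 : rot N ∅ = ∅ := by simp [rot]
  rw [h3] at h2
  simpa using h2

theorem rch1_w2 (n : ℕ) : ∀ T : Finset ℕ, T.card = n → (∀ i ∈ T, i < N) →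
    Rch1 S (T, false, true) := by
  have hN : 1 ≤ N := by have := S.hq; omega
  induction n with
  | zero =>
    intro T hc _
    rw [Finset.card_eq_zero] at hc
    rw [hc]
    exact rch1_empty S
  | succ n ih =>
    intro T hc hT
    rcases Nat.eq_zero_or_pos n with hn | hn
    · subst hn
      obtain ⟨i, rfl⟩ := Finset.card_eq_one.mp hc
      exact rch1_single S i (hT i (by simp))
    · -- `|T| ≥ 2`
      obtain ⟨i, hi⟩ : T.Nonempty := by rw [← Finset.card_pos]; omega
      have hiN := hT i hi
      have hN2 : 2 ≤ N := by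
        have h1 : T ⊆ Finset.range N := fun j hj => Finset.mem_range.mpr (hT j hj)
        have h2 := Finset.card_le_card h1
        rw [Finset.card_range] at h2
        omega
      refine rch1_unrot S T hT hN (N + 1 - i) ?_
      set T' := (rot N)^[N + 1 - i] T with hT'
      have hsub' : ∀ j ∈ T', j < N := rot_iter_subR T hT _
      have h1 : 1 ∈ T' := by
        have h2 := (mem_rot_iter T hT (N + 1 - i) i hiN).mpr hi
        have h3 : (i + (N + 1 - i)) % N = 1 := by
          rw [show i + (N + 1 - i) = N + 1 by omega, Nat.add_mod_left, Nat.mod_eq_of_lt hN2]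
        rwa [h3] at h2
      set V := (rot N)^[N - 1] T' with hV
      have hsubV : ∀ j ∈ V, j < N := rot_iter_subR T' hsub' _
      have h0 : 0 ∈ V := by
        have h2 := (mem_rot_iter T' hsub' (N - 1) 1 hN2).mpr h1
        rwa [show 1 + (N - 1) = N by omega, Nat.mod_self] at h2
      have hrV : rot N V = T' := by
        rw [hV, ← Function.iterate_succ_apply' (rot N) (N - 1) T',
          show (N - 1).succ = N by omega, rot_iter_full T' hsub']
      have hcV : V.card = n + 1 := by
        rw [hV, rot_iter_card T' hsub', hT', rot_iter_card T hT, hc]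
      obtain ⟨U, hU, hqU, hbc, hcU⟩ := exists_bc S V hsubV h0
      have hU1 : U.Nonempty := by rw [← Finset.card_pos]; omega
      have h3 := rch1_b S U hU false true (ih U (by omega) hU)
      rw [be_eq_bc S U hU1 hqU, hbc] at h3
      have h4 := rch1_a S V hsubV _ _ h3
      rw [hrV] at h4
      simpa using h4

theorem rch1_of_sub (T : Finset ℕ) (hT : ∀ i ∈ T, i < N) : Rch1 S (T, false, true) :=
  rch1_w2 S T.card T rfl hT

end Reach1

theorem reach1 {N : ℕ} (S : Sys N) (R : Finset (Finset ℕ)) (h : IsFam S R) :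
    ∀ c ∈ G1 S R, ∃ u : List (Fin 2), (M1 S).eval u = dec N c := by
  intro c hc
  change Rch1 S c
  unfold G1 at hc
  simp only [Finset.mem_union, Finset.mem_image] at hc
  have hN : 1 ≤ N := by have := S.hq; omega
  rcases hc with ((⟨T, hT, rfl⟩ | ⟨T, hT, rfl⟩) | ⟨T, hT, rfl⟩) | ⟨T, hT, rfl⟩
  · -- the tree
    refine h.ind (fun T => Rch1 S (T, false, false)) (rch1_start S) ?_ ?_ T hT
    · intro T hT hP hn
      have h1 := rch1_a S T (h.sub T hT) false false hP
      rw [rot_eq_sh T (h.sub T hT) hn] at h1
      simpa [hn] using h1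
    · intro T hT hP hn
      have h1 := rch1_b S T (h.sub T hT) false false hP
      rw [be_eq_bc S T (h.ne T hT) hn] at h1
      simpa [hn] using h1
  · refine rch1_of_sub S T ?_
    intro i hi
    exact Finset.mem_range.mp (Finset.mem_powerset.mp hT hi)
  · obtain ⟨U, hU, rfl⟩ := Finset.mem_image.mp hT
    have hU' := Finset.mem_powerset.mp hU
    have hsub : ∀ i ∈ U, i < N := fun i hi =>
      Finset.mem_range.mp (Finset.mem_of_mem_erase (hU' hi))
    have hq : S.q ∉ U := fun hq => (Finset.mem_erase.mp (hU' hq)).1 rfl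
    have h1 := rch1_b S U hsub false true (rch1_of_sub S U hsub)
    simpa [hq] using h1
  · obtain ⟨U, hU, rfl⟩ := Finset.mem_image.mp hT
    have hU' := Finset.mem_powerset.mp hU
    have hsub : ∀ i ∈ insert S.q U, i < N := by
      intro i hi
      rcases Finset.mem_insert.mp hi with rfl | hi
      · exact S.hq
      · exact Finset.mem_range.mp (Finset.mem_of_mem_erase (hU' hi))
    have hq : S.q ∉ U := fun hq => (Finset.mem_erase.mp (hU' hq)).1 rfl
    have h1 := rch1_b S (insert S.q U) hsub false true (rch1_of_sub S _ hsub)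
    have h2 : be S (insert S.q U) = be S U := by
      rw [← be_erase S (insert S.q U), Finset.erase_insert hq]
    rw [h2] at h1
    simpa using h1

end Pool.Agent.H40.Magic
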