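import Pool.Agent.H40.Magic.Comb
import Pool.Agent.H40.Magic.Step2

/-!
# Design 2: all codes in `G2` are reachable

`(T, false, false)`, `T ∈ R`: `h.ind`.  `(∅, false, true)`: `a^(N-z)` from the start; b: `(∅, true, false)`; b: `({0}, false, true)`;
a's: `({q}, false, true)`; b: `(∅, true, true)`; b: `({0}, true, true)`.
The other sets by strong induction on `(|T|, sum of T)` (or on `∑ i ∈ T, (i + 1)`... any order in which the predecessors come
first): `0 ∉ T`, `T = sh U`: a from `(U, m)` (same mode; `|U| = |T|`, smaller sum).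
`0 ∈ T`, `T = bc S.sg U`, `q ∉ U`, `|U| = |T| - 1`, `U` nonempty (`T ≠ {0}`): `(T, true, false)` is b from `(U, false, true)`;
`(T, true, true)` is b from `(U, true, true)`; `(T, false, true)` is b from `(U, true, false)` if `|U| ≥ 2` and b from
`(insert q U, true, false)` if `|U| = 1` (here `|insert q U| = |T| = 2`; the pairs in mode `(true, false)` are reachable from
singletons in mode `(false, true)`, so treat pairs in mode `(true, false)` before pairs in mode `(false, true)`).
-/

set_option autoImplicit false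

namespace Pool.Agent.H40.Magic

/-- the code is reachable in design 2 -/
def Rch2 {N : ℕ} (S : Sys N) (T : Finset ℕ) (m1 m2 : Bool) : Prop :=
  ∃ u : List (Fin 2), (M2 S).eval u = dec N (T, m1, m2)

theorem rch2_start {N : ℕ} (S : Sys N) : Rch2 S {S.z} false false :=
  ⟨[], by rw [NFA.eval_nil, start2]⟩

theorem rch2_a {N : ℕ} (S : Sys N) (T : Finset ℕ) (m1 m2 : Bool) (hT : ∀ i ∈ T, i < N)
    (h : Rch2 S T m1 m2) : Rch2 S (sh (T.erase (N - 1))) m1 (m2 || decide (N - 1 ∈ T)) := by
  obtain ⟨u, hu⟩ := h
  refine ⟨u ++ [0], ?_⟩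
  rw [NFA.eval_append_singleton, hu, step2_a S T hT]

theorem rch2_b {N : ℕ} (S : Sys N) (T : Finset ℕ) (m1 m2 : Bool) (hT : ∀ i ∈ T, i < N)
    (h : Rch2 S T m1 m2) : Rch2 S (be2 S T m1) m2 (m1 || decide (S.q ∈ T)) := by
  obtain ⟨u, hu⟩ := h
  refine ⟨u ++ [1], ?_⟩
  rw [NFA.eval_append_singleton, hu, step2_b S T hT]

/-- the a-step without the top element -/
theorem rch2_sh {N : ℕ} (S : Sys N) (U : Finset ℕ) (m1 m2 : Bool) (hU : ∀ i ∈ U, i + 1 < N)
    (h : Rch2 S U m1 m2) : Rch2 S (sh U) m1 m2 := by
  have hn : N - 1 ∉ U := by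
    intro hm
    have := hU _ hm
    omega
  have h1 := rch2_a S U m1 m2 (fun i hi => by have := hU i hi; omega) h
  have h2 : (m2 || decide (N - 1 ∈ U)) = m2 := by simp [hn]
  rw [Finset.erase_eq_of_notMem hn, h2] at h1
  exact h1

/-- singletons move up -/
theorem rch2_single {N : ℕ} (S : Sys N) (m1 m2 : Bool) (i k : ℕ) (hk : i + k < N)
    (h : Rch2 S {i} m1 m2) : Rch2 S {i + k} m1 m2 := by
  induction k with
  | zero => exact h
  | succ k ih =>
    have h1 := rch2_sh S {i + k} m1 m2 (by
      intro j hj
      rw [Finset.mem_singleton] at hj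
      omega) (ih (by omega))
    have h2 : sh {i + k} = {i + (k + 1)} := by
      rw [sh, Finset.image_singleton]
      rfl
    rw [h2] at h1
    exact h1

/-- shifting up to a given set: it suffices to treat the sets containing `0` -/
theorem rch2_shift {N : ℕ} (S : Sys N) (m1 m2 : Bool) (n : ℕ) (hn : n ≠ 0)
    (h : ∀ T : Finset ℕ, (∀ i ∈ T, i < N) → T.card = n → 0 ∈ T → Rch2 S T m1 m2) :
    ∀ T : Finset ℕ, (∀ i ∈ T, i < N) → T.card = n → Rch2 S T m1 m2 := by
  have key : ∀ s : ℕ, ∀ T : Finset ℕ, (∑ i ∈ T, i) = s → (∀ i ∈ T, i < N) → T.card = n →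
      Rch2 S T m1 m2 := by
    intro s
    induction s using Nat.strong_induction_on with
    | _ s ih =>
      intro T hs hT hc
      by_cases h0 : 0 ∈ T
      · exact h T hT hc h0
      · obtain ⟨U, hU, hUT, hUc⟩ := exists_sh (N := N) T hT h0
        have hsum : (∑ i ∈ T, i) = (∑ i ∈ U, i) + U.card := by
          rw [← hUT, sh, Finset.sum_image (fun a _ b _ hab => by
            simpa using hab), Finset.sum_add_distrib]
          simp
        have hlt : (∑ i ∈ U, i) < s := by omega
        have := rch2_sh S U m1 m2 hU (ih _ hlt U rfl (fun i hi => by have := hU i hi; omega)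
          (by omega))
        rw [hUT] at this
        exact this
  intro T hT hc
  exact key _ T rfl hT hc

theorem be2_of_ne {N : ℕ} (S : Sys N) (U : Finset ℕ) (m1 : Bool) (hq : S.q ∉ U)
    (hne : U.Nonempty) : be2 S U m1 = bc S.sg U := by
  unfold be2
  rw [Finset.erase_eq_of_notMem hq, if_neg]
  rintro ⟨h, -⟩
  exact hne.ne_empty h

theorem be2_true {N : ℕ} (S : Sys N) (U : Finset ℕ) : be2 S U true = bc S.sg (U.erase S.q) := by
  unfold be2
  rw [if_neg]
  rintro ⟨-, h⟩
  exact Bool.noConfusion h

theorem bc_empty (sg : ℕ → ℕ) : bc sg ∅ = {0} := by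
  simp [bc]

theorem rch2_empty_ft {N : ℕ} (S : Sys N) : Rch2 S ∅ false true := by
  have hz := S.hz
  have h1 := rch2_single S false false S.z (N - 1 - S.z) (by omega) (rch2_start S)
  have e : S.z + (N - 1 - S.z) = N - 1 := by omega
  rw [e] at h1
  have h2 := rch2_a S {N - 1} false false (by
    intro i hi
    rw [Finset.mem_singleton] at hi
    omega) h1
  have e2 : sh (({N - 1} : Finset ℕ).erase (N - 1)) = ∅ := by
    simp [sh]
  have e3 : (false || decide (N - 1 ∈ ({N - 1} : Finset ℕ))) = true := by simp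
  rw [e2, e3] at h2
  exact h2

theorem rch2_empty_tf {N : ℕ} (S : Sys N) : Rch2 S ∅ true false := by
  have h1 := rch2_b S ∅ false true (by simp) (rch2_empty_ft S)
  have e : be2 S ∅ false = ∅ := by simp [be2]
  have e3 : (false || decide (S.q ∈ (∅ : Finset ℕ))) = false := by simp
  rw [e, e3] at h1
  exact h1

theorem rch2_zero_ft {N : ℕ} (S : Sys N) : Rch2 S {0} false true := by
  have h1 := rch2_b S ∅ true false (by simp) (rch2_empty_tf S)
  have e3 : (true || decide (S.q ∈ (∅ : Finset ℕ))) = true := by simp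
  rw [be2_true, Finset.erase_empty, bc_empty, e3] at h1
  exact h1

theorem rch2_empty_tt {N : ℕ} (S : Sys N) : Rch2 S ∅ true true := by
  have hq := S.hq
  have h0 := rch2_single S false true 0 S.q (by omega) (rch2_zero_ft S)
  rw [zero_add] at h0
  have h1 := rch2_b S {S.q} false true (by
    intro i hi
    rw [Finset.mem_singleton] at hi
    omega) h0
  have e : be2 S {S.q} false = ∅ := by simp [be2]
  have e3 : (false || decide (S.q ∈ ({S.q} : Finset ℕ))) = true := by simp
  rw [e, e3] at h1
  exact h1

theorem rch2_zero_tt {N : ℕ} (S : Sys N) : Rch2 S {0} true true := by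
  have h1 := rch2_b S ∅ true true (by simp) (rch2_empty_tt S)
  have e3 : (true || decide (S.q ∈ (∅ : Finset ℕ))) = true := by simp
  rw [be2_true, Finset.erase_empty, bc_empty, e3] at h1
  exact h1

theorem rch2_all {N : ℕ} (S : Sys N) (n : ℕ) :
    (n ≠ 1 → ∀ T : Finset ℕ, (∀ i ∈ T, i < N) → T.card = n → Rch2 S T true false) ∧
    (∀ T : Finset ℕ, (∀ i ∈ T, i < N) → T.card = n → Rch2 S T true true) ∧
    (∀ T : Finset ℕ, (∀ i ∈ T, i < N) → T.card = n → Rch2 S T false true) := by
  induction n with
  | zero =>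
    refine ⟨?_, ?_, ?_⟩
    · intro _ T _ hc
      rw [Finset.card_eq_zero.1 hc]
      exact rch2_empty_tf S
    · intro T _ hc
      rw [Finset.card_eq_zero.1 hc]
      exact rch2_empty_tt S
    · intro T _ hc
      rw [Finset.card_eq_zero.1 hc]
      exact rch2_empty_ft S
  | succ n ih =>
    obtain ⟨ih1, ih2, ih3⟩ := ih
    have s1 : n + 1 ≠ 1 → ∀ T : Finset ℕ, (∀ i ∈ T, i < N) → T.card = n + 1 →
        Rch2 S T true false := by
      intro hn1
      apply rch2_shift S true false (n + 1) (by omega)
      intro T hT hc h0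
      obtain ⟨U, hU, hqU, hUT, hUc⟩ := exists_bc S T hT h0
      have hne : U.Nonempty := by
        rw [← Finset.card_pos]
        omega
      have h1 := rch2_b S U false true hU (ih3 U hU (by omega))
      have e3 : (false || decide (S.q ∈ U)) = false := by simp [hqU]
      rw [be2_of_ne S U false hqU hne, hUT, e3] at h1
      exact h1
    have s2 : ∀ T : Finset ℕ, (∀ i ∈ T, i < N) → T.card = n + 1 → Rch2 S T true true := by
      apply rch2_shift S true true (n + 1) (by omega)
      intro T hT hc h0
      obtain ⟨U, hU, hqU, hUT, hUc⟩ := exists_bc S T hT h0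
      have h1 := rch2_b S U true true hU (ih2 U hU (by omega))
      rw [be2_true, Finset.erase_eq_of_notMem hqU, hUT, Bool.true_or] at h1
      exact h1
    refine ⟨s1, s2, ?_⟩
    apply rch2_shift S false true (n + 1) (by omega)
    intro T hT hc h0
    obtain ⟨U, hU, hqU, hUT, hUc⟩ := exists_bc S T hT h0
    by_cases hn : n = 1
    · have hW : ∀ i ∈ insert S.q U, i < N := by
        intro i hi
        rcases Finset.mem_insert.1 hi with h | h
        · rw [h]; exact S.hq
        · exact hU i h
      have hWc : (insert S.q U).card = n + 1 := by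
        rw [Finset.card_insert_of_notMem hqU]
        omega
      have h1 := rch2_b S (insert S.q U) true false hW (s1 (by omega) _ hW hWc)
      rw [be2_true, Finset.erase_insert hqU, hUT, Bool.true_or] at h1
      exact h1
    · have h1 := rch2_b S U true false hU (ih1 hn U hU (by omega))
      rw [be2_true, Finset.erase_eq_of_notMem hqU, hUT, Bool.true_or] at h1
      exact h1

theorem reach2 {N : ℕ} (S : Sys N) (R : Finset (Finset ℕ)) (h : IsFam S R) :
    ∀ c ∈ G2 (N := N) R, ∃ u : List (Fin 2), (M2 S).eval u = dec N c := by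
  have hR : ∀ T ∈ R, Rch2 S T false false := by
    refine h.ind (fun T => Rch2 S T false false) (rch2_start S) ?_ ?_
    · intro T hT hr hn
      have h1 := rch2_a S T false false (h.sub T hT) hr
      have e3 : (false || decide (N - 1 ∈ T)) = false := by simp [hn]
      rw [Finset.erase_eq_of_notMem hn, e3] at h1
      exact h1
    · intro T hT hr hn
      have h1 := rch2_b S T false false (h.sub T hT) hr
      have e3 : (false || decide (S.q ∈ T)) = false := by simp [hn]
      rw [be2_of_ne S T false hn (h.ne T hT), e3] at h1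
      exact h1
  have hp : ∀ T ∈ (Finset.range N).powerset, ∀ i ∈ T, i < N := by
    intro T hT i hi
    exact Finset.mem_range.1 (Finset.mem_powerset.1 hT hi)
  intro c hc
  unfold G2 at hc
  rcases Finset.mem_union.1 hc with hc | hc
  · rcases Finset.mem_union.1 hc with hc | hc
    · rcases Finset.mem_union.1 hc with hc | hc
      · obtain ⟨T, hT, rfl⟩ := Finset.mem_image.1 hc
        exact hR T hT
      · obtain ⟨T, hT, rfl⟩ := Finset.mem_image.1 hc
        exact (rch2_all S T.card).2.2 T (hp T hT) rfl
    · obtain ⟨T, hT, rfl⟩ := Finset.mem_image.1 hc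
      obtain ⟨hT1, hT2⟩ := Finset.mem_filter.1 hT
      exact (rch2_all S T.card).1 hT2 T (hp T hT1) rfl
  · obtain ⟨T, hT, rfl⟩ := Finset.mem_image.1 hc
    exact (rch2_all S T.card).2.1 T (hp T hT) rfl

end Pool.Agent.H40.Magic
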