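import Pool.Agent.H40.Magic.Step3

/-!
# Top family: all codes in `G3` are reachable

Strong induction on `x`.  `x = 0`: `a^(N+1)` from the start.  `x = 1`: start.
`x = 2 y` even, `y ≥ 1` (so `y < 2 ^ N`): a from `y` if `y ∈ G3`; otherwise `y = 2 ^ (r + 1) - 1` with `1 ≤ r < j` and we use a from
`2 ^ N + y`.  If `r = N - 1` (then `j = N`) this is `2 ^ (N + 1) - 1`, which is b from `2 ^ N` (as `j = N`); if `r < N - 1`,
`2 ^ N + y` is `b^(r+1)` from `2 ^ (N - r - 1)` (and `2 ^ (N - r - 1) ≥ 2`; each b is the low case `x ↦ 2 x + 1`).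
`x = 2 y + 1` odd, `y ≥ 1`: `y = 1` only if `j = 1` (as `3 = V_1`), then it is b from `2 ^ N`; `y ≥ 2`: b from `y` if `y ∈ G3`;
otherwise `y = V_r`, `1 ≤ r < j`, `x = V_(r+1) ∈ G3`, so `r + 1 = j` and `x = V_j` is b from `2 ^ N`.
`2 ^ k` is reachable by `a^k`.
-/

set_option autoImplicit false

namespace Pool.Agent.H40.Magic

theorem reach3_aux_mem (N j x : ℕ) : x ∈ G3 N j ↔
    x < 2 ^ (N + 1) ∧ ∀ r, 1 ≤ r → r < j → x ≠ 2 ^ (r + 1) - 1 := by
  unfold G3
  rw [Finset.mem_sdiff, Finset.mem_range, Finset.mem_image]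
  refine and_congr_right fun _ => ⟨fun h r h1 h2 h3 => h ⟨r, Finset.mem_Ico.2 ⟨h1, h2⟩, h3.symm⟩, ?_⟩
  rintro h ⟨r, hr, h3⟩
  rw [Finset.mem_Ico] at hr
  exact h r hr.1 hr.2 h3.symm

theorem reach3_aux_step (N j : ℕ) (c : Fin 2) {x y : ℕ}
    (h : (M3 N j).stepSet (dec3 N x) c = dec3 N y)
    (hx : ∃ u : List (Fin 2), (M3 N j).eval u = dec3 N x) :
    ∃ u : List (Fin 2), (M3 N j).eval u = dec3 N y := by
  obtain ⟨u, hu⟩ := hx
  exact ⟨u ++ [c], by rw [NFA.eval_append_singleton, hu, h]⟩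

theorem reach3_aux_a (N j : ℕ) {x y : ℕ} (hx : x < 2 ^ (N + 1)) (hy : (2 * x) % 2 ^ (N + 1) = y)
    (h : ∃ u : List (Fin 2), (M3 N j).eval u = dec3 N x) :
    ∃ u : List (Fin 2), (M3 N j).eval u = dec3 N y :=
  reach3_aux_step N j 0 (by rw [step3_a N j x hx, hy]) h

theorem reach3_aux_b (N j : ℕ) (hN : 1 ≤ N) {x : ℕ} (hx : x < 2 ^ N) (h2 : 2 ≤ x)
    (h : ∃ u : List (Fin 2), (M3 N j).eval u = dec3 N x) :
    ∃ u : List (Fin 2), (M3 N j).eval u = dec3 N (2 * x + 1) :=
  reach3_aux_step N j 1 (by rw [step3_b_low N j x hN hx, if_neg (by omega)]) h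

theorem reach3_aux_pow (N j k : ℕ) (hk : k ≤ N) :
    ∃ u : List (Fin 2), (M3 N j).eval u = dec3 N (2 ^ k) := by
  induction k with
  | zero => exact ⟨[], by rw [NFA.eval_nil, pow_zero, start3 N j]⟩
  | succ k ih =>
    have h1 : 2 ^ (k + 1) < 2 ^ (N + 1) := Nat.pow_lt_pow_right (by norm_num) (by omega)
    have h2 : 2 ^ (k + 1) = 2 * 2 ^ k := by ring
    refine reach3_aux_a N j (x := 2 ^ k) (Nat.pow_lt_pow_right (by norm_num) (by omega)) ?_
      (ih (by omega))
    rw [← h2]
    exact Nat.mod_eq_of_lt h1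

theorem reach3_aux_zero (N j : ℕ) : ∃ u : List (Fin 2), (M3 N j).eval u = dec3 N 0 := by
  refine reach3_aux_a N j (x := 2 ^ N) (Nat.pow_lt_pow_right (by norm_num) (by omega)) ?_
    (reach3_aux_pow N j N le_rfl)
  rw [show 2 * 2 ^ N = 2 ^ (N + 1) by ring, Nat.mod_self]

theorem reach3_aux_V (N j : ℕ) (hN : 1 ≤ N) (hj : j ≤ N) :
    ∃ u : List (Fin 2), (M3 N j).eval u = dec3 N (2 ^ (j + 1) - 1) := by
  have h := reach3_aux_step N j 1 (x := 2 ^ N + 0) (step3_b_high N j 0 hN hj (by positivity))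
    (reach3_aux_pow N j N le_rfl)
  simpa using h

theorem reach3_aux_bs (N j : ℕ) (hN : 1 ≤ N) (m t : ℕ) (hm : 1 ≤ m) (ht : m + t ≤ N) :
    ∃ u : List (Fin 2), (M3 N j).eval u = dec3 N (2 ^ (m + t) + 2 ^ t - 1) := by
  induction t with
  | zero =>
    have h := reach3_aux_pow N j m (by omega)
    simpa using h
  | succ t ih =>
    have h1 : 1 ≤ 2 ^ t := Nat.one_le_two_pow
    have h2 : 2 ^ 1 * 2 ^ t ≤ 2 ^ (m + t) := by
      rw [← pow_add]
      exact Nat.pow_le_pow_right (by norm_num) (by omega)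
    have h3 : 2 ^ (m + t + 1) ≤ 2 ^ N := Nat.pow_le_pow_right (by norm_num) (by omega)
    have h4 : 2 ^ (m + t + 1) = 2 * 2 ^ (m + t) := by ring
    have h5 : 2 ^ (t + 1) = 2 * 2 ^ t := by ring
    have h := reach3_aux_b N j hN (x := 2 ^ (m + t) + 2 ^ t - 1) (by omega) (by omega)
      (ih (by omega))
    have e : 2 * (2 ^ (m + t) + 2 ^ t - 1) + 1 = 2 ^ (m + (t + 1)) + 2 ^ (t + 1) - 1 := by
      rw [show m + (t + 1) = m + t + 1 by ring, h4, h5]
      omega
    rwa [e] at h

theorem reach3 (N j : ℕ) (hN : 1 ≤ N) (hj1 : 1 ≤ j) (hj : j ≤ N) :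
    ∀ x ∈ G3 N j, ∃ u : List (Fin 2), (M3 N j).eval u = dec3 N x := by
  intro x
  induction x using Nat.strong_induction_on with
  | _ x ih =>
  intro hx
  obtain ⟨hx1, hx2⟩ := (reach3_aux_mem N j x).1 hx
  have hNN : 2 ^ (N + 1) = 2 * 2 ^ N := by ring
  rcases Nat.even_or_odd' x with ⟨y, hy | hy⟩
  · rcases Nat.eq_zero_or_pos y with h0 | h0
    · rw [hy, h0]
      exact reach3_aux_zero N j
    · by_cases hyG : y ∈ G3 N j
      · refine reach3_aux_a N j (x := y) (by omega) ?_ (ih y (by omega) hyG)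
        rw [← hy]
        exact Nat.mod_eq_of_lt hx1
      · rw [reach3_aux_mem] at hyG
        push Not at hyG
        obtain ⟨r, hr1, hr2, hr3⟩ := hyG (by omega)
        have key : ∃ u : List (Fin 2), (M3 N j).eval u = dec3 N (2 ^ N + y) := by
          rcases Nat.lt_or_ge (r + 1) N with h | h
          · have h2 := reach3_aux_bs N j hN (N - (r + 1)) (r + 1) (by omega) (by omega)
            have e1 : N - (r + 1) + (r + 1) = N := by omega
            have e2 : 1 ≤ 2 ^ (r + 1) := Nat.one_le_two_pow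
            rw [e1] at h2
            have e3 : 2 ^ N + y = 2 ^ N + 2 ^ (r + 1) - 1 := by omega
            rw [e3]
            exact h2
          · have hrN : r + 1 = N := by omega
            have hjN : j = N := by omega
            have h2 := reach3_aux_V N j hN hj
            have e2 : 1 ≤ 2 ^ N := Nat.one_le_two_pow
            have e3 : 2 ^ N + y = 2 ^ (j + 1) - 1 := by
              rw [hr3, hrN, hjN, hNN]
              omega
            rw [e3]
            exact h2
        refine reach3_aux_a N j (x := 2 ^ N + y) (by omega) ?_ key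
        rw [mul_add, ← hNN, Nat.add_mod_left, ← hy]
        exact Nat.mod_eq_of_lt hx1
  · rcases Nat.eq_zero_or_pos y with h0 | h0
    · rw [hy, h0]
      have h := reach3_aux_pow N j 0 (by omega)
      simpa using h
    · rcases Nat.eq_or_lt_of_le h0 with h1 | h1
      · -- `x = 3`
        have hj2 : j = 1 := by
          by_contra hne
          have h3 := hx2 1 le_rfl (by omega)
          apply h3
          rw [hy, ← h1]
          norm_num
        have h2 := reach3_aux_V N j hN hj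
        rw [hj2] at h2
        rw [hy, ← h1, hj2]
        exact h2
      · by_cases hyG : y ∈ G3 N j
        · rw [hy]
          exact reach3_aux_b N j hN (by omega) (by omega) (ih y (by omega) hyG)
        · rw [reach3_aux_mem] at hyG
          push Not at hyG
          obtain ⟨r, hr1, hr2, hr3⟩ := hyG (by omega)
          have e1 : 1 ≤ 2 ^ (r + 1) := Nat.one_le_two_pow
          have e2 : 2 ^ (r + 1 + 1) = 2 * 2 ^ (r + 1) := by ring
          have e3 : x = 2 ^ (r + 1 + 1) - 1 := by omega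
          have h4 : r + 1 = j := by
            by_contra hne
            exact hx2 (r + 1) (by omega) (by omega) e3
          rw [e3, h4]
          exact reach3_aux_V N j hN hj

end Pool.Agent.H40.Magic
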