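import Pool.Agent.H40.Magic.Tree
import Pool.Agent.H40.Magic.Closed1
import Pool.Agent.H40.Magic.Reach1
import Pool.Agent.H40.Magic.Dist1
import Pool.Agent.H40.Magic.Card1
import Pool.Agent.H40.Magic.Closed2
import Pool.Agent.H40.Magic.Reach2
import Pool.Agent.H40.Magic.Dist2
import Pool.Agent.H40.Magic.Closed3
import Pool.Agent.H40.Magic.Reach3
import Pool.Agent.H94.Magic.Main

/-!
# Assembly: every `α` with `2 ^ (n - 1) < α ≤ 2 ^ n` is attained
-/

set_option autoImplicit false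

namespace Pool.Agent.H40.Magic

open Pool.Agent.H94.Magic (NonMagic mem_quot card_of_codes good_chain nonMagic_all)

theorem nq_le {m : ℕ} (N : NFA (Fin 2) (Fin m)) : nq N ≤ 2 ^ m := by
  have hsub : Set.range (fun u : List (Fin 2) =>
      ({w : List (Fin 2) | u ++ w ∈ N.accepts} : Set (List (Fin 2)))) ⊆
      Set.range (fun S : Set (Fin m) => ({w : List (Fin 2) | w ∈ N.acceptsFrom S} : Set (List (Fin 2)))) := by
    rintro _ ⟨u, rfl⟩
    refine ⟨N.eval u, ?_⟩
    ext w
    exact (mem_quot N u w).symm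
  unfold nq
  rw [Nat.card_coe_set_eq]
  refine (Set.ncard_le_ncard hsub (Set.finite_range _)).trans ?_
  rw [← Nat.card_coe_set_eq]
  refine (Finite.card_range_le _).trans ?_
  rw [Nat.card_eq_fintype_card, Fintype.card_set, Fintype.card_fin]

theorem nonMagic_of_big {n α : ℕ} (M : NFA (Fin 2) (Fin n)) (hs : ∃ q : Fin n, M.start = {q})
    (hc : nq M = α) (hα : 2 ^ (n - 1) < α) : NonMagic n α := by
  refine ⟨M, hs, ?_, hc⟩
  intro m hm N hN
  have h1 := nq_le N
  have h2 : nq N = nq M := by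
    unfold nq
    rw [hN]
  have h3 : (2 : ℕ) ^ m ≤ 2 ^ (n - 1) := Nat.pow_le_pow_right (by norm_num) (by omega)
  omega

theorem design1 {N : ℕ} (S : Sys N) (R : Finset (Finset ℕ)) (h : IsFam S R) :
    nq (M1 S) = 2 * 2 ^ N + R.card := by
  rw [← card1 S R]
  refine card_of_codes (M1 S) (G1 S R) (dec N) ?_ (closed1 S R h) (reach1 S R h) (dist1 S R h)
  refine ⟨({S.z}, false, false), ?_, start1 S⟩
  unfold G1
  simp only [Finset.mem_union, Finset.mem_image]
  exact Or.inl (Or.inl (Or.inl ⟨{S.z}, h.root, rfl⟩))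

theorem design2 {N : ℕ} (S : Sys N) (R : Finset (Finset ℕ)) (h : IsFam S R) :
    nq (M2 S) + N = 3 * 2 ^ N + R.card := by
  have hN : 1 ≤ N := by
    have := S.hq
    omega
  rw [← card2 hN R]
  congr 1
  refine card_of_codes (M2 S) (G2 (N := N) R) (dec N) ?_ (closed2 S R h) (reach2 S R h) (dist2 S R h)
  refine ⟨({S.z}, false, false), ?_, start2 S⟩
  unfold G2
  simp only [Finset.mem_union, Finset.mem_image]
  exact Or.inl (Or.inl (Or.inl ⟨{S.z}, h.root, rfl⟩))

theorem design3 (N j : ℕ) (hN : 1 ≤ N) (hj1 : 1 ≤ j) (hj : j ≤ N) :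
    nq (M3 N j) + (j - 1) = 2 ^ (N + 1) := by
  rw [← card3 N j hj1 hj]
  congr 1
  refine card_of_codes (M3 N j) (G3 N j) (dec3 N) ?_ (closed3 N j hN hj1 hj)
    (reach3 N j hN hj1 hj) (dist3 N j)
  refine ⟨1, ?_, start3 N j⟩
  unfold G3
  rw [Finset.mem_sdiff, Finset.mem_range, Finset.mem_image]
  constructor
  · exact Nat.one_lt_two_pow (by omega)
  · rintro ⟨r, hr, hr2⟩
    have h1 : 2 ^ 2 ≤ 2 ^ (r + 1) :=
      Nat.pow_le_pow_right (by norm_num) (by have := (Finset.mem_Ico.1 hr).1; omega)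
    omega

theorem nonMagic_upper (n : ℕ) (hn : 1 ≤ n) (α : ℕ) (h1 : 2 ^ (n - 1) < α) (h2 : α ≤ 2 ^ n) :
    NonMagic n α := by
  rcases Nat.lt_or_ge n 3 with h3 | h3
  · interval_cases n
    · norm_num at h1 h2
      have : α = 2 := by omega
      subst this
      exact (good_chain 0 [1] [1, 0] (by decide +kernel)).nonMagic
    · norm_num at h1 h2
      have : α = 3 ∨ α = 4 := by omega
      rcases this with rfl | rfl
      · exact (good_chain 1 [2, 1] [1, 2, 0] (by decide +kernel)).nonMagic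
      · exact (good_chain 1 [2, 3] [1, 2, 0, 3] (by decide +kernel)).nonMagic
  · obtain ⟨N, rfl⟩ : ∃ N, n = N + 2 := ⟨n - 2, by omega⟩
    have hN : 1 ≤ N := by omega
    have e1 : 2 ^ (N + 2 - 1) = 2 * 2 ^ N := by
      rw [show N + 2 - 1 = N + 1 by omega, pow_succ]; ring
    have e2 : 2 ^ (N + 2) = 4 * 2 ^ N := by rw [pow_add]; ring
    have hlt : N < 2 ^ N := Nat.lt_two_pow_self
    rcases Nat.lt_or_ge α (3 * 2 ^ N) with ha | ha
    · rw [e1] at h1
      obtain ⟨S, R, h, hc⟩ := exists_sys N (α - 2 * 2 ^ N) (by omega) (by omega)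
      refine nonMagic_of_big (M1 S) ⟨⟨S.z, by have := S.hz; omega⟩, ?_⟩
        (by rw [design1 S R h, hc]; omega) (by rw [e1]; exact h1)
      ext s
      simp only [M1, Set.mem_setOf_eq, Set.mem_singleton_iff, Fin.ext_iff]
    · rcases Nat.lt_or_ge (α + N) (4 * 2 ^ N) with hb | hb
      · rw [e1] at h1
        obtain ⟨S, R, h, hc⟩ := exists_sys N (α + N - 3 * 2 ^ N) (by omega) (by omega)
        have hd := design2 S R h
        refine nonMagic_of_big (M2 S) ⟨⟨S.z, by have := S.hz; omega⟩, ?_⟩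
          (by rw [hc] at hd; omega) (by rw [e1]; exact h1)
        ext s
        simp only [M2, Set.mem_setOf_eq, Set.mem_singleton_iff, Fin.ext_iff]
      · rw [e2] at h2
        have hd := design3 (N + 1) (4 * 2 ^ N - α + 1) (by omega) (by omega) (by omega)
        have e3 : 2 ^ (N + 1 + 1) = 4 * 2 ^ N := by rw [pow_add, pow_add]; ring
        rw [e3] at hd
        refine nonMagic_of_big (n := N + 2) (M3 (N + 1) (4 * 2 ^ N - α + 1)) ⟨0, ?_⟩
          (by omega) h1
        ext s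
        simp only [M3, Set.mem_setOf_eq, Set.mem_singleton_iff, Fin.ext_iff]
        rfl

/-- no binary magic numbers -/
theorem nonMagic_every (n : ℕ) (hn : 1 ≤ n) (α : ℕ) (h1 : n ≤ α) (h2 : α ≤ 2 ^ n) :
    NonMagic n α := by
  rcases Nat.lt_or_ge (2 ^ (n - 1)) α with h | h
  · exact nonMagic_upper n hn α h h2
  · exact nonMagic_all n hn α h1 h

end Pool.Agent.H40.Magic
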