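import Pool.Agent.H40.Magic.Defs

/-!
# Top family: the step function on codes (numbers `x < 2 ^ (N + 1)`)
-/

set_option autoImplicit false

namespace Pool.Agent.H40.Magic

theorem testBit_two_mul_succ' (x i : ℕ) : (2 * x).testBit (i + 1) = x.testBit i := by
  rw [Nat.testBit_succ]
  congr 1
  omega

theorem testBit_two_mul_zero' (x : ℕ) : (2 * x).testBit 0 = false := by
  rw [Nat.testBit_zero]
  simp

theorem testBit_two_mul_add_one_succ' (x i : ℕ) : (2 * x + 1).testBit (i + 1) = x.testBit i := by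
  rw [Nat.testBit_succ]
  congr 1
  omega

theorem testBit_two_mul_add_one_zero' (x : ℕ) : (2 * x + 1).testBit 0 = true := by
  rw [Nat.testBit_zero]
  simp

theorem step3_a' (N j x : ℕ) :
    (M3 N j).stepSet (dec3 N x) 0 = dec3 N (2 * x) := by
  ext t
  rw [NFA.mem_stepSet]
  change (∃ s : Fin (N + 1), x.testBit s.val = true ∧ tr3 N j s.val 0 t.val) ↔
    (2 * x).testBit t.val = true
  constructor
  · rintro ⟨s, hs, h⟩
    rcases h with ⟨-, h⟩ | ⟨h, -⟩
    · rw [h, testBit_two_mul_succ']
      exact hs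
    · exact absurd h (by decide)
  · intro h
    rcases Nat.eq_zero_or_pos t.val with h0 | h0
    · rw [h0, testBit_two_mul_zero'] at h
      exact absurd h (by decide)
    · have ht := t.isLt
      obtain ⟨k, hk⟩ : ∃ k, t.val = k + 1 := ⟨t.val - 1, by omega⟩
      rw [hk, testBit_two_mul_succ'] at h
      exact ⟨⟨k, by omega⟩, h, Or.inl ⟨rfl, hk⟩⟩

theorem step3_a (N j x : ℕ) (hx : x < 2 ^ (N + 1)) :
    (M3 N j).stepSet (dec3 N x) 0 = dec3 N ((2 * x) % 2 ^ (N + 1)) := by
  rw [step3_a']
  ext t
  change (2 * x).testBit t.val = true ↔ ((2 * x) % 2 ^ (N + 1)).testBit t.val = true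
  rw [Nat.testBit_mod_two_pow]
  have := t.isLt
  simp [this]

/-- letter b, top bit absent: `0 ↦ 0`, `1 ↦ 2`, `x ↦ 2 x + 1` -/
theorem step3_b_low (N j x : ℕ) (hN : 1 ≤ N) (hx : x < 2 ^ N) :
    (M3 N j).stepSet (dec3 N x) 1 = dec3 N (if x ≤ 1 then 2 * x else 2 * x + 1) := by
  have hNb : ∀ i, x.testBit i = true → i < N := by
    intro i hi
    by_contra hlt
    have : x.testBit i = false := Nat.testBit_lt_two_pow
      (lt_of_lt_of_le hx (Nat.pow_le_pow_right (by norm_num) (by omega)))
    rw [this] at hi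
    exact absurd hi (by decide)
  ext t
  rw [NFA.mem_stepSet]
  change (∃ s : Fin (N + 1), x.testBit s.val = true ∧ tr3 N j s.val 1 t.val) ↔
    (if x ≤ 1 then 2 * x else 2 * x + 1).testBit t.val = true
  have ht := t.isLt
  constructor
  · rintro ⟨s, hs, h⟩
    have hsN := hNb _ hs
    rcases h with ⟨h, -⟩ | ⟨-, ⟨h1, h2⟩ | ⟨h1, h2, h3⟩ | ⟨h1, -⟩⟩
    · exact absurd h (by decide)
    · rw [h2]
      rw [h1] at hs
      split_ifs
      · rw [testBit_two_mul_succ']; exact hs
      · rw [testBit_two_mul_add_one_succ']; exact hs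
    · have hx1 : ¬ x ≤ 1 := by
        intro hle
        have : x.testBit s.val = false := Nat.testBit_lt_two_pow (lt_of_lt_of_le
          (show x < 2 ^ 1 by omega) (Nat.pow_le_pow_right (by norm_num) h1))
        rw [this] at hs
        exact absurd hs (by decide)
      rw [if_neg hx1]
      rcases h3 with h3 | h3
      · rw [h3]; exact testBit_two_mul_add_one_zero' x
      · rw [h3, testBit_two_mul_add_one_succ']; exact hs
    · omega
  · intro h
    rcases Nat.eq_zero_or_pos t.val with h0 | h0
    · rw [h0] at h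
      split_ifs at h with hx1
      · rw [testBit_two_mul_zero'] at h
        exact absurd h (by decide)
      · have hx2 : x / 2 ≠ 0 := by omega
        obtain ⟨i, hi⟩ := Nat.exists_testBit_of_ne_zero hx2
        rw [← Nat.testBit_succ] at hi
        have hiN := hNb _ hi
        exact ⟨⟨i + 1, by omega⟩, hi, Or.inr ⟨rfl, Or.inr (Or.inl ⟨by simp, hiN, Or.inl h0⟩)⟩⟩
    · obtain ⟨k, hk⟩ : ∃ k, t.val = k + 1 := ⟨t.val - 1, by omega⟩
      have hb : x.testBit k = true := by
        rw [hk] at h
        split_ifs at h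
        · rw [testBit_two_mul_succ'] at h; exact h
        · rw [testBit_two_mul_add_one_succ'] at h; exact h
      have hkN := hNb _ hb
      refine ⟨⟨k, by omega⟩, hb, Or.inr ⟨rfl, ?_⟩⟩
      rcases Nat.eq_zero_or_pos k with h1 | h1
      · left
        subst h1
        exact ⟨rfl, hk⟩
      · right; left
        exact ⟨h1, hkN, Or.inr hk⟩

/-- letter b, top bit present -/
theorem step3_b_high (N j x : ℕ) (hN : 1 ≤ N) (hj : j ≤ N) (hx : x < 2 ^ N) :
    (M3 N j).stepSet (dec3 N (2 ^ N + x)) 1 = dec3 N ((2 * x) ||| (2 ^ (j + 1) - 1)) := by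
  have hNb : ∀ i, x.testBit i = true → i < N := by
    intro i hi
    by_contra hlt
    have : x.testBit i = false := Nat.testBit_lt_two_pow
      (lt_of_lt_of_le hx (Nat.pow_le_pow_right (by norm_num) (by omega)))
    rw [this] at hi
    exact absurd hi (by decide)
  have hbit : ∀ i, i < N → (2 ^ N + x).testBit i = x.testBit i := by
    intro i hi
    exact Nat.testBit_two_pow_add_gt hi x
  have hbitN : (2 ^ N + x).testBit N = true := by
    rw [Nat.testBit_two_pow_add_eq]
    have : x.testBit N = false := Nat.testBit_lt_two_pow hx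
    rw [this]
    rfl
  ext t
  rw [NFA.mem_stepSet]
  change (∃ s : Fin (N + 1), (2 ^ N + x).testBit s.val = true ∧ tr3 N j s.val 1 t.val) ↔
    ((2 * x) ||| (2 ^ (j + 1) - 1)).testBit t.val = true
  rw [Nat.testBit_or, Nat.testBit_two_pow_sub_one, Bool.or_eq_true, decide_eq_true_eq]
  have ht := t.isLt
  constructor
  · rintro ⟨s, hs, h⟩
    have hsN := s.isLt
    rcases h with ⟨h, -⟩ | ⟨-, ⟨h1, h2⟩ | ⟨h1, h2, h3⟩ | ⟨h1, h2⟩⟩
    · exact absurd h (by decide)
    · left
      rw [h2, testBit_two_mul_succ']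
      rw [hbit _ (by omega), h1] at hs
      exact hs
    · rcases h3 with h3 | h3
      · right; omega
      · left
        rw [hbit _ h2] at hs
        rw [h3, testBit_two_mul_succ']
        exact hs
    · right; omega
  · rintro (h | h)
    · rcases Nat.eq_zero_or_pos t.val with h0 | h0
      · rw [h0, testBit_two_mul_zero'] at h
        exact absurd h (by decide)
      · obtain ⟨k, hk⟩ : ∃ k, t.val = k + 1 := ⟨t.val - 1, by omega⟩
        rw [hk, testBit_two_mul_succ'] at h
        have hkN := hNb _ h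
        refine ⟨⟨k, by omega⟩, (hbit k hkN).trans h, Or.inr ⟨rfl, ?_⟩⟩
        rcases Nat.eq_zero_or_pos k with h1 | h1
        · left
          subst h1
          exact ⟨rfl, hk⟩
        · right; left
          exact ⟨h1, hkN, Or.inr hk⟩
    · exact ⟨⟨N, by omega⟩, hbitN, Or.inr ⟨rfl, Or.inr (Or.inr ⟨rfl, by omega⟩)⟩⟩

theorem start3 (N j : ℕ) : dec3 N 1 = (M3 N j).start := by
  ext t
  change (1 : ℕ).testBit t.val = true ↔ t.val = 0
  rcases Nat.eq_zero_or_pos t.val with h0 | h0
  · simp [h0]
  · obtain ⟨k, hk⟩ : ∃ k, t.val = k + 1 := ⟨t.val - 1, by omega⟩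
    rw [hk, Nat.testBit_succ]
    simp

/-- `a^k` reads the digit `N - k` -/
theorem read3 (N j k x : ℕ) (hk : k ≤ N) :
    List.replicate k 0 ∈ (M3 N j).acceptsFrom (dec3 N x) ↔ x.testBit (N - k) = true := by
  induction k generalizing x with
  | zero =>
    rw [List.replicate_zero, NFA.nil_mem_acceptsFrom]
    constructor
    · rintro ⟨s, hs, h⟩
      change x.testBit s.val = true at hs
      change s.val = N at h
      rw [h] at hs
      exact hs
    · intro h
      exact ⟨⟨N, by omega⟩, h, rfl⟩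
  | succ k ih =>
    rw [List.replicate_succ, NFA.cons_mem_acceptsFrom, step3_a', ih (2 * x) (by omega)]
    have : N - k = (N - (k + 1)) + 1 := by omega
    rw [this, testBit_two_mul_succ']

end Pool.Agent.H40.Magic
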