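import Pool.Agent.H40.Magic.Defs

/-!
# Steps on codes: auxiliary lemma for designs 1 and 2
-/

set_option autoImplicit false

namespace Pool.Agent.H40.Magic

variable {N : ℕ}

theorem mem_stepSet_dec (tr : ℕ → Fin 2 → ℕ → Prop) (M : NFA (Fin 2) (Fin (N + 2)))
    (hM : ∀ s c, M.step s c = {t | tr s.val c t.val}) (T : Finset ℕ) (hT : ∀ i ∈ T, i < N)
    (m1 m2 : Bool) (a : Fin 2) (t : Fin (N + 2)) :
    t ∈ M.stepSet (dec N (T, m1, m2)) a ↔ (∃ i ∈ T, tr i a t.val) ∨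
      (m1 = true ∧ tr N a t.val) ∨ (m2 = true ∧ tr (N + 1) a t.val) := by
  rw [NFA.mem_stepSet]
  constructor
  · rintro ⟨s, hs, hst⟩
    rw [hM] at hst
    rcases hs with hs | ⟨hs, hm⟩ | ⟨hs, hm⟩
    · exact Or.inl ⟨s.val, hs, hst⟩
    · have h : tr s.val a t.val := hst
      rw [hs] at h
      exact Or.inr (Or.inl ⟨hm, h⟩)
    · have h : tr s.val a t.val := hst
      rw [hs] at h
      exact Or.inr (Or.inr ⟨hm, h⟩)
  · rintro (⟨i, hi, h⟩ | ⟨hm, h⟩ | ⟨hm, h⟩)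
    · refine ⟨⟨i, (hT i hi).trans (by omega)⟩, Or.inl hi, ?_⟩
      rw [hM]
      exact h
    · refine ⟨⟨N, by omega⟩, Or.inr (Or.inl ⟨rfl, hm⟩), ?_⟩
      rw [hM]
      exact h
    · refine ⟨⟨N + 1, by omega⟩, Or.inr (Or.inr ⟨rfl, hm⟩), ?_⟩
      rw [hM]
      exact h

theorem nil_mem (M : NFA (Fin 2) (Fin (N + 2))) (X : Set (Fin (N + 2))) :
    [] ∈ M.acceptsFrom X ↔ ∃ s ∈ X, s ∈ M.accept := by
  rw [NFA.mem_acceptsFrom]
  constructor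
  · rintro ⟨s, hs, h⟩
    exact ⟨s, by simpa using h, hs⟩
  · rintro ⟨s, hs, h⟩
    exact ⟨s, h, by simpa using hs⟩

end Pool.Agent.H40.Magic
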