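import Pool.Agent.H40.Magic.TreeAux

/-!
# Tree systems: E-step (proofs 218, section 1)

`q' = 0`, `z' = z + 1`, `sg' (i + 1) = sg i` for `i ≠ q`, `sg' (q + 1) = N` (e.g. `sg' i = if i = q + 1 then N else sg (i - 1)`),
`R' = {sh T : T ∈ R} ∪ {bc sg' (sh T) : T ∈ R}`.  The b-child of `sh T` always exists (`0 ∉ sh T`), the b-child of
`bc sg' (sh T)` is forbidden (`0 ∈ ..`), its a-child is allowed iff `N ∉ ..` iff `q ∉ T`, and then it is `sh (bc sg T)`.
`|R'| = 2 |R|`, the new `A` is `A + B = |R| + 1`, the new `B` is `|R|`.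
-/

set_option autoImplicit false

namespace Pool.Agent.H40.Magic

theorem fam_estep {N : ℕ} (S : Sys N) (R : Finset (Finset ℕ)) (h : IsFam S R) (hi : Inv S R) :
    ∃ (S' : Sys (N + 1)) (R' : Finset (Finset ℕ)), IsFam S' R' ∧ Inv S' R' ∧
      R'.card = 2 * R.card := by
  classical
  have hqN := S.hq
  have hsgq : (sysE S).sg (S.q + 1) = N := by
    show (if S.q + 1 = S.q + 1 then N else _) = N
    rw [if_pos rfl]
  have hsg : ∀ i, i ≠ S.q → (sysE S).sg (i + 1) = S.sg i := fun i hi => by
    show (if i + 1 = S.q + 1 then N else S.sg (i + 1 - 1)) = S.sg i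
    rw [if_neg (by omega), Nat.add_sub_cancel]
  have hqE : (sysE S).q = 0 := rfl
  -- the b-child of a shift
  have hbs : ∀ T, S.q ∉ T → bc (sysE S).sg (sh T) = bc S.sg T := by
    intro T hT
    unfold bc sh
    rw [Finset.image_image]
    rw [Finset.image_congr (g := S.sg) (fun i hi => by
      show (sysE S).sg (i + 1) = S.sg i
      exact hsg i (fun h' => hT (h' ▸ hi)))]
  have hshsub : ∀ T ∈ R, ∀ i ∈ sh T, i < N + 1 := by
    intro T hT i hiT
    obtain ⟨j, hj, rfl⟩ := mem_sh.1 hiT
    have := h.sub T hT j hj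
    omega
  have hNsh : ∀ T, N ∈ sh T ↔ N - 1 ∈ T := by
    intro T
    have h1 := succ_mem_sh (T := T) (i := N - 1)
    rwa [Nat.sub_add_cancel (by omega)] at h1
  have hNbs : ∀ T ∈ R, N ∈ bc (sysE S).sg (sh T) ↔ S.q ∈ T := by
    intro T hT
    constructor
    · intro h'
      by_contra hq
      rw [hbs T hq] at h'
      exact absurd (bc_sub S T (h.sub T hT) hq N h') (lt_irrefl N)
    · intro hq
      exact mem_bc.2 (Or.inr ⟨S.q + 1, succ_mem_sh.2 hq, hsgq⟩)
  set R1 := R.image sh with hR1
  set R2 := R.image (fun T => bc (sysE S).sg (sh T)) with hR2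
  have h01 : ∀ T ∈ R1, 0 ∉ T := by
    intro T hT
    obtain ⟨U, _, rfl⟩ := Finset.mem_image.1 hT
    exact zero_notMem_sh U
  have h02 : ∀ T ∈ R2, 0 ∈ T := by
    intro T hT
    obtain ⟨U, _, rfl⟩ := Finset.mem_image.1 hT
    exact mem_bc.2 (Or.inl rfl)
  have hc1 : R1.card = R.card := Finset.card_image_of_injective _ fun U V => sh_inj
  have hinj2 : Set.InjOn (fun T => bc (sysE S).sg (sh T)) (R : Set (Finset ℕ)) := by
    intro U hU V hV hUV
    exact sh_inj (bc_inj (sysE S) (hshsub U hU) (zero_notMem_sh U) (hshsub V hV)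
      (zero_notMem_sh V) hUV)
  have hc2 : R2.card = R.card := Finset.card_image_of_injOn hinj2
  have hd : Disjoint R1 R2 := by
    rw [Finset.disjoint_left]
    exact fun T hT hT' => h01 T hT (h02 T hT')
  have hcard : (R1 ∪ R2).card = 2 * R.card := by
    rw [Finset.card_union_of_disjoint hd, hc1, hc2]
    omega
  refine ⟨sysE S, R1 ∪ R2, ⟨?_, ?_, ?_, ?_, ?_, ?_⟩, ?_, hcard⟩
  · apply Finset.mem_union_left
    show {S.z + 1} ∈ R1
    refine Finset.mem_image.2 ⟨{S.z}, h.root, ?_⟩
    unfold sh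
    rw [Finset.image_singleton]
  · intro T hT i hiT
    rcases Finset.mem_union.1 hT with h' | h'
    · obtain ⟨U, hU, rfl⟩ := Finset.mem_image.1 h'
      exact hshsub U hU i hiT
    · obtain ⟨U, hU, rfl⟩ := Finset.mem_image.1 h'
      exact bc_sub (sysE S) (sh U) (hshsub U hU) (zero_notMem_sh U) i hiT
  · intro T hT
    rcases Finset.mem_union.1 hT with h' | h'
    · obtain ⟨U, hU, rfl⟩ := Finset.mem_image.1 h'
      obtain ⟨j, hj⟩ := h.ne U hU
      exact ⟨j + 1, succ_mem_sh.2 hj⟩
    · exact ⟨0, h02 T h'⟩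
  · intro T hT hNT
    rw [Nat.add_sub_cancel] at hNT
    apply Finset.mem_union_left
    rcases Finset.mem_union.1 hT with h' | h'
    · obtain ⟨U, hU, rfl⟩ := Finset.mem_image.1 h'
      exact Finset.mem_image_of_mem _ (h.cla U hU (fun h1 => hNT ((hNsh U).2 h1)))
    · obtain ⟨U, hU, rfl⟩ := Finset.mem_image.1 h'
      have hq : S.q ∉ U := fun h1 => hNT ((hNbs U hU).2 h1)
      show sh (bc (sysE S).sg (sh U)) ∈ R1
      rw [hbs U hq]
      exact Finset.mem_image_of_mem _ (h.clb U hU hq)
  · intro T hT h0T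
    change 0 ∉ T at h0T
    rcases Finset.mem_union.1 hT with h' | h'
    · obtain ⟨U, hU, rfl⟩ := Finset.mem_image.1 h'
      exact Finset.mem_union_right _
        (Finset.mem_image_of_mem (fun T => bc (sysE S).sg (sh T)) hU)
    · exact absurd (h02 T h') h0T
  · intro P h0 ha hb
    have hbP : ∀ T ∈ R, P (sh T) → P (bc (sysE S).sg (sh T)) := fun T hT hPT =>
      hb (sh T) (Finset.mem_union_left _ (Finset.mem_image_of_mem _ hT)) hPT (zero_notMem_sh T)
    have hold : ∀ T ∈ R, P (sh T) := by
      apply h.ind (fun T => P (sh T))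
      · have : sh {S.z} = {S.z + 1} := by
          unfold sh
          rw [Finset.image_singleton]
        show P (sh {S.z})
        rw [this]
        exact h0
      · intro T hT hPT hNT
        refine ha (sh T) (Finset.mem_union_left _ (Finset.mem_image_of_mem _ hT)) hPT ?_
        rw [Nat.add_sub_cancel]
        exact fun h1 => hNT ((hNsh T).1 h1)
      · intro T hT hPT hq
        have h1 := hbP T hT hPT
        have h2 := ha _ (Finset.mem_union_right _
          (Finset.mem_image_of_mem (fun T => bc (sysE S).sg (sh T)) hT)) h1 (by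
            rw [Nat.add_sub_cancel]
            exact fun h3 => hq ((hNbs T hT).1 h3))
        show P (sh (bc S.sg T))
        rw [← hbs T hq]
        exact h2
    intro T hT
    rcases Finset.mem_union.1 hT with h' | h'
    · obtain ⟨U, hU, rfl⟩ := Finset.mem_image.1 h'
      exact hold U hU
    · obtain ⟨U, hU, rfl⟩ := Finset.mem_image.1 h'
      exact hbP U hU (hold U hU)
  · unfold Inv
    rw [Nat.add_sub_cancel]
    show ((R1 ∪ R2).filter (fun T => N ∈ T)).card + ((R1 ∪ R2).filter (fun T => 0 ∈ T)).card = _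
    have e1 : (R1 ∪ R2).filter (fun T => 0 ∈ T) = R2 := by
      ext T
      rw [Finset.mem_filter]
      constructor
      · rintro ⟨h1, h2⟩
        rcases Finset.mem_union.1 h1 with h' | h'
        · exact absurd h2 (h01 T h')
        · exact h'
      · exact fun h' => ⟨Finset.mem_union_right _ h', h02 T h'⟩
    have e2 : (R1 ∪ R2).filter (fun T => N ∈ T) =
        (R.filter (fun T => N - 1 ∈ T)).image sh ∪
          (R.filter (fun T => S.q ∈ T)).image (fun T => bc (sysE S).sg (sh T)) := by
      ext T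
      rw [Finset.mem_filter, Finset.mem_union, Finset.mem_union]
      constructor
      · rintro ⟨h1 | h1, h2⟩
        · obtain ⟨U, hU, rfl⟩ := Finset.mem_image.1 h1
          exact Or.inl (Finset.mem_image_of_mem _ (Finset.mem_filter.2 ⟨hU, (hNsh U).1 h2⟩))
        · obtain ⟨U, hU, rfl⟩ := Finset.mem_image.1 h1
          exact Or.inr (Finset.mem_image_of_mem (fun T => bc (sysE S).sg (sh T))
            (Finset.mem_filter.2 ⟨hU, (hNbs U hU).1 h2⟩))
      · rintro (h1 | h1)
        · obtain ⟨U, hU, rfl⟩ := Finset.mem_image.1 h1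
          obtain ⟨h3, h4⟩ := Finset.mem_filter.1 hU
          exact ⟨Or.inl (Finset.mem_image_of_mem _ h3), (hNsh U).2 h4⟩
        · obtain ⟨U, hU, rfl⟩ := Finset.mem_image.1 h1
          obtain ⟨h3, h4⟩ := Finset.mem_filter.1 hU
          exact ⟨Or.inr (Finset.mem_image_of_mem (fun T => bc (sysE S).sg (sh T)) h3),
            (hNbs U h3).2 h4⟩
    have hd2 : Disjoint ((R.filter (fun T => N - 1 ∈ T)).image sh)
        ((R.filter (fun T => S.q ∈ T)).image (fun T => bc (sysE S).sg (sh T))) := by
      rw [Finset.disjoint_left]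
      intro T hT hT'
      obtain ⟨U, _, rfl⟩ := Finset.mem_image.1 hT
      obtain ⟨V, _, hV⟩ := Finset.mem_image.1 hT'
      exact zero_notMem_sh U (hV ▸ mem_bc.2 (Or.inl rfl))
    rw [e1, e2, Finset.card_union_of_disjoint hd2,
      Finset.card_image_of_injective _ (fun U V => sh_inj),
      Finset.card_image_of_injOn (hinj2.mono (by
        intro T hT
        exact (Finset.mem_filter.1 (Finset.mem_coe.1 hT)).1)), hc2, hcard]
    have := hi
    unfold Inv at this
    omega

end Pool.Agent.H40.Magic
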