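import Pool.Agent.H40.Magic.TreeAux

/-!
# Tree systems: O-step (proofs 218, section 1)

`sg' = Function.update sg q N`, `q' = N`, `z' = z`,
`R' = R ∪ {sh T : T ∈ R, N - 1 ∈ T} ∪ {bc sg' T : T ∈ R, q ∈ T}`.
The new sets contain `N` (the old ones do not), the sets `sh T` do not contain `0`, the sets `bc sg' T` do, and both maps
are injective; so `|R'| = |R| + A + B = 2 |R| + 1` and the two new counts are both `A + B = |R| + 1`.
`ind` for `R'`: use `h.ind` with the predicate `fun T => P T` and then treat the new sets.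
-/

set_option autoImplicit false

namespace Pool.Agent.H40.Magic

theorem fam_ostep {N : ℕ} (S : Sys N) (R : Finset (Finset ℕ)) (h : IsFam S R) (hi : Inv S R) :
    ∃ (S' : Sys (N + 1)) (R' : Finset (Finset ℕ)), IsFam S' R' ∧ Inv S' R' ∧
      R'.card = 2 * R.card + 1 := by
  classical
  have hqN := S.hq
  -- old sets do not contain `N`
  have hN : ∀ T ∈ R, N ∉ T := fun T hT hmem => absurd (h.sub T hT N hmem) (lt_irrefl N)
  have hsgq : (sysO S).sg S.q = N := Function.update_self _ _ _
  have hsg : ∀ i, i ≠ S.q → (sysO S).sg i = S.sg i := fun i hi => Function.update_of_ne hi _ _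
  have hbcsame : ∀ T, S.q ∉ T → bc (sysO S).sg T = bc S.sg T := fun T hT =>
    bc_congr fun i hi => hsg i (fun h' => hT (h' ▸ hi))
  have hsub' : ∀ T ∈ R, ∀ i ∈ T, i < N + 1 := fun T hT i hi => (h.sub T hT i hi).trans (Nat.lt_succ_self N)
  set RA := (R.filter (fun T => N - 1 ∈ T)).image sh with hRA
  set RB := (R.filter (fun T => S.q ∈ T)).image (bc (sysO S).sg) with hRB
  have hNA : ∀ T ∈ RA, N ∈ T := by
    intro T hT
    obtain ⟨U, hU, rfl⟩ := Finset.mem_image.1 hT
    have h1 := (Finset.mem_filter.1 hU).2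
    have h2 := succ_mem_sh.2 h1
    rwa [Nat.sub_add_cancel (by omega)] at h2
  have hNB : ∀ T ∈ RB, N ∈ T := by
    intro T hT
    obtain ⟨U, hU, rfl⟩ := Finset.mem_image.1 hT
    exact mem_bc.2 (Or.inr ⟨S.q, (Finset.mem_filter.1 hU).2, hsgq⟩)
  have h0A : ∀ T ∈ RA, 0 ∉ T := by
    intro T hT
    obtain ⟨U, _, rfl⟩ := Finset.mem_image.1 hT
    exact zero_notMem_sh U
  have h0B : ∀ T ∈ RB, 0 ∈ T := by
    intro T hT
    obtain ⟨U, _, rfl⟩ := Finset.mem_image.1 hT
    exact mem_bc.2 (Or.inl rfl)
  have hcA : RA.card = (R.filter (fun T => N - 1 ∈ T)).card :=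
    Finset.card_image_of_injective _ fun U V => sh_inj
  have hcB : RB.card = (R.filter (fun T => S.q ∈ T)).card := by
    apply Finset.card_image_of_injOn
    intro U hU V hV hUV
    have hU' := (Finset.mem_filter.1 (Finset.mem_coe.1 hU)).1
    have hV' := (Finset.mem_filter.1 (Finset.mem_coe.1 hV)).1
    exact bc_inj (sysO S) (hsub' U hU') (hN U hU') (hsub' V hV') (hN V hV') hUV
  have hdAB : Disjoint RA RB := by
    rw [Finset.disjoint_left]
    exact fun T hT hT' => h0A T hT (h0B T hT')
  have hdR : Disjoint R (RA ∪ RB) := by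
    rw [Finset.disjoint_left]
    intro T hT hT'
    rcases Finset.mem_union.1 hT' with h' | h'
    · exact hN T hT (hNA T h')
    · exact hN T hT (hNB T h')
  have hfilt : (R ∪ (RA ∪ RB)).filter (fun T => N ∈ T) = RA ∪ RB := by
    ext T
    rw [Finset.mem_filter]
    constructor
    · rintro ⟨h1, h2⟩
      rcases Finset.mem_union.1 h1 with h' | h'
      · exact absurd h2 (hN T h')
      · exact h'
    · intro h'
      refine ⟨Finset.mem_union_right _ h', ?_⟩
      rcases Finset.mem_union.1 h' with h'' | h''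
      · exact hNA T h''
      · exact hNB T h''
  have hcAB : (RA ∪ RB).card = R.card + 1 := by
    rw [Finset.card_union_of_disjoint hdAB, hcA, hcB]
    exact hi
  have hcard : (R ∪ (RA ∪ RB)).card = 2 * R.card + 1 := by
    rw [Finset.card_union_of_disjoint hdR, hcAB]
    omega
  refine ⟨sysO S, R ∪ (RA ∪ RB), ⟨?_, ?_, ?_, ?_, ?_, ?_⟩, ?_, hcard⟩
  · exact Finset.mem_union_left _ h.root
  · intro T hT i hiT
    rcases Finset.mem_union.1 hT with h' | h'
    · exact hsub' T h' i hiT
    · rcases Finset.mem_union.1 h' with h'' | h''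
      · obtain ⟨U, hU, rfl⟩ := Finset.mem_image.1 h''
        obtain ⟨j, hj, rfl⟩ := mem_sh.1 hiT
        have := h.sub U (Finset.mem_filter.1 hU).1 j hj
        omega
      · obtain ⟨U, hU, rfl⟩ := Finset.mem_image.1 h''
        have hU' := (Finset.mem_filter.1 hU).1
        exact bc_sub (sysO S) U (hsub' U hU') (hN U hU') i hiT
  · intro T hT
    rcases Finset.mem_union.1 hT with h' | h'
    · exact h.ne T h'
    · rcases Finset.mem_union.1 h' with h'' | h''
      · exact ⟨N, hNA T h''⟩
      · exact ⟨0, h0B T h''⟩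
  · intro T hT hNT
    rw [Nat.add_sub_cancel] at hNT
    rcases Finset.mem_union.1 hT with h' | h'
    · by_cases h1 : N - 1 ∈ T
      · exact Finset.mem_union_right _ (Finset.mem_union_left _
          (Finset.mem_image_of_mem _ (Finset.mem_filter.2 ⟨h', h1⟩)))
      · exact Finset.mem_union_left _ (h.cla T h' h1)
    · rcases Finset.mem_union.1 h' with h'' | h''
      · exact absurd (hNA T h'') hNT
      · exact absurd (hNB T h'') hNT
  · intro T hT hNT
    change N ∉ T at hNT
    rcases Finset.mem_union.1 hT with h' | h'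
    · by_cases h1 : S.q ∈ T
      · exact Finset.mem_union_right _ (Finset.mem_union_right _
          (Finset.mem_image_of_mem _ (Finset.mem_filter.2 ⟨h', h1⟩)))
      · rw [hbcsame T h1]
        exact Finset.mem_union_left _ (h.clb T h' h1)
    · rcases Finset.mem_union.1 h' with h'' | h''
      · exact absurd (hNA T h'') hNT
      · exact absurd (hNB T h'') hNT
  · intro P h0 ha hb
    have hold : ∀ T ∈ R, P T := by
      apply h.ind P h0
      · intro T hT hPT _
        refine ha T (Finset.mem_union_left _ hT) hPT ?_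
        rw [Nat.add_sub_cancel]
        exact hN T hT
      · intro T hT hPT hq
        rw [← hbcsame T hq]
        exact hb T (Finset.mem_union_left _ hT) hPT (hN T hT)
    intro T hT
    rcases Finset.mem_union.1 hT with h' | h'
    · exact hold T h'
    · rcases Finset.mem_union.1 h' with h'' | h''
      · obtain ⟨U, hU, rfl⟩ := Finset.mem_image.1 h''
        have hU' := (Finset.mem_filter.1 hU).1
        refine ha U (Finset.mem_union_left _ hU') (hold U hU') ?_
        rw [Nat.add_sub_cancel]
        exact hN U hU'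
      · obtain ⟨U, hU, rfl⟩ := Finset.mem_image.1 h''
        have hU' := (Finset.mem_filter.1 hU).1
        exact hb U (Finset.mem_union_left _ hU') (hold U hU') (hN U hU')
  · unfold Inv
    rw [Nat.add_sub_cancel]
    show ((R ∪ (RA ∪ RB)).filter (fun T => N ∈ T)).card +
      ((R ∪ (RA ∪ RB)).filter (fun T => N ∈ T)).card = _
    rw [hfilt, hcAB, hcard]
    omega

end Pool.Agent.H40.Magic
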