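import Pool.Agent.H40.Magic.TreeBase
import Pool.Agent.H40.Magic.TreeO
import Pool.Agent.H40.Magic.TreeE

/-!
# Tree systems: every size is attained
-/

set_option autoImplicit false

namespace Pool.Agent.H40.Magic

theorem exists_sys_aux (v : ℕ) : ∀ (N : ℕ), 1 ≤ v → v < 2 ^ N →
    ∃ (S : Sys N) (R : Finset (Finset ℕ)), IsFam S R ∧ Inv S R ∧ R.card = v := by
  induction v using Nat.strong_induction_on with
  | _ v ih =>
    intro N hv hN
    have hN0 : 1 ≤ N := by
      rcases Nat.eq_zero_or_pos N with h | h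
      · subst h
        norm_num at hN
        omega
      · exact h
    rcases Nat.lt_or_ge v 2 with h1 | h1
    · have : v = 1 := by omega
      subst this
      exact fam_base N hN0
    · obtain ⟨M, rfl⟩ : ∃ M, N = M + 1 := ⟨N - 1, by omega⟩
      rw [pow_succ] at hN
      obtain ⟨S, R, h, hi, hc⟩ := ih (v / 2) (by omega) M (by omega) (by omega)
      rcases Nat.mod_two_eq_zero_or_one v with h2 | h2
      · obtain ⟨S', R', h', hi', hc'⟩ := fam_estep S R h hi
        exact ⟨S', R', h', hi', by omega⟩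
      · obtain ⟨S', R', h', hi', hc'⟩ := fam_ostep S R h hi
        exact ⟨S', R', h', hi', by omega⟩

theorem exists_sys (N v : ℕ) (hv : 1 ≤ v) (hN : v < 2 ^ N) :
    ∃ (S : Sys N) (R : Finset (Finset ℕ)), IsFam S R ∧ R.card = v := by
  obtain ⟨S, R, h, _, hc⟩ := exists_sys_aux v N hv hN
  exact ⟨S, R, h, hc⟩

end Pool.Agent.H40.Magic
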