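import Pool.Agent.H40.Magic.Comb

/-!
# Tree systems: helper lemmas for the O-step and the E-step
-/

set_option autoImplicit false

namespace Pool.Agent.H40.Magic

theorem bc_inj {N : ℕ} (S : Sys N) {U V : Finset ℕ} (hU1 : ∀ i ∈ U, i < N) (hU2 : S.q ∉ U)
    (hV1 : ∀ i ∈ V, i < N) (hV2 : S.q ∉ V) (hUV : bc S.sg U = bc S.sg V) : U = V := by
  have h1 : U.image S.sg = V.image S.sg := by
    have h2 := congrArg (fun X : Finset ℕ => X.erase 0) hUV
    simp only [bc] at h2
    rwa [Finset.erase_insert (zero_notMem_image S U hU1 hU2),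
      Finset.erase_insert (zero_notMem_image S V hV1 hV2)] at h2
  ext i
  constructor
  · intro hi
    have h3 : S.sg i ∈ V.image S.sg := h1 ▸ Finset.mem_image_of_mem _ hi
    obtain ⟨j, hj, hij⟩ := Finset.mem_image.1 h3
    have := S.inj j i (hV1 j hj) (fun h => hV2 (h ▸ hj)) (hU1 i hi) (fun h => hU2 (h ▸ hi)) hij
    exact this ▸ hj
  · intro hi
    have h3 : S.sg i ∈ U.image S.sg := h1.symm ▸ Finset.mem_image_of_mem _ hi
    obtain ⟨j, hj, hij⟩ := Finset.mem_image.1 h3
    have := S.inj j i (hU1 j hj) (fun h => hU2 (h ▸ hj)) (hV1 i hi) (fun h => hV2 (h ▸ hi)) hij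
    exact this ▸ hj

theorem sh_inj {U V : Finset ℕ} (h : sh U = sh V) : U = V :=
  Finset.image_injective (fun i j h => by simpa using h) h

theorem mem_sh {T : Finset ℕ} {i : ℕ} : i ∈ sh T ↔ ∃ j ∈ T, j + 1 = i := Finset.mem_image

theorem succ_mem_sh {T : Finset ℕ} {i : ℕ} : i + 1 ∈ sh T ↔ i ∈ T := by
  rw [mem_sh]
  constructor
  · rintro ⟨j, hj, h⟩
    have : j = i := by omega
    exact this ▸ hj
  · exact fun h => ⟨i, h, rfl⟩

theorem zero_notMem_sh (T : Finset ℕ) : 0 ∉ sh T := by
  rw [mem_sh]
  rintro ⟨j, _, h⟩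
  omega

theorem mem_bc {sg : ℕ → ℕ} {T : Finset ℕ} {i : ℕ} : i ∈ bc sg T ↔ i = 0 ∨ ∃ j ∈ T, sg j = i := by
  unfold bc
  rw [Finset.mem_insert, Finset.mem_image]

theorem bc_congr {sg sg' : ℕ → ℕ} {T : Finset ℕ} (h : ∀ i ∈ T, sg i = sg' i) :
    bc sg T = bc sg' T := by
  unfold bc
  rw [Finset.image_congr (g := sg') (fun i hi => h i hi)]

/-- the new system of the O-step -/
def sysO {N : ℕ} (S : Sys N) : Sys (N + 1) where
  sg := Function.update S.sg S.q N
  q := N
  z := S.z
  hq := Nat.lt_succ_self N
  hz := S.hz.trans (Nat.lt_succ_self N)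
  maps := by
    intro i hi hiN
    have hq := S.hq
    by_cases h : i = S.q
    · subst h
      rw [Function.update_self]
      omega
    · rw [Function.update_of_ne h]
      have := S.maps i (by omega) h
      omega
  inj := by
    intro i j hi hiN hj hjN hij
    by_cases h : i = S.q
    · by_cases h' : j = S.q
      · rw [h, h']
      · rw [h, Function.update_self, Function.update_of_ne h'] at hij
        have := S.maps j (by omega) h'
        omega
    · by_cases h' : j = S.q
      · rw [h', Function.update_self, Function.update_of_ne h] at hij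
        have := S.maps i (by omega) h
        omega
      · rw [Function.update_of_ne h, Function.update_of_ne h'] at hij
        exact S.inj i j (by omega) h (by omega) h' hij
  surj := by
    intro j hj hjN
    by_cases h : j = N
    · subst h
      exact ⟨S.q, by have := S.hq; omega, by have := S.hq; omega, Function.update_self _ _ _⟩
    · obtain ⟨i, h1, h2, h3⟩ := S.surj j hj (by omega)
      exact ⟨i, by omega, by omega, by rw [Function.update_of_ne h2]; exact h3⟩

/-- the new system of the E-step -/
def sysE {N : ℕ} (S : Sys N) : Sys (N + 1) where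
  sg := fun i => if i = S.q + 1 then N else S.sg (i - 1)
  q := 0
  z := S.z + 1
  hq := Nat.succ_pos N
  hz := Nat.succ_lt_succ S.hz
  maps := by
    intro i hi hi0
    have hq := S.hq
    show 1 ≤ (if i = S.q + 1 then N else S.sg (i - 1)) ∧
      (if i = S.q + 1 then N else S.sg (i - 1)) < N + 1
    split_ifs with h
    · omega
    · have := S.maps (i - 1) (by omega) (by omega)
      omega
  inj := by
    intro i j hi hi0 hj hj0 hij
    change (if i = S.q + 1 then N else S.sg (i - 1)) =
      (if j = S.q + 1 then N else S.sg (j - 1)) at hij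
    split_ifs at hij with h h' h'
    · omega
    · have := S.maps (j - 1) (by omega) (by omega)
      omega
    · have := S.maps (i - 1) (by omega) (by omega)
      omega
    · have := S.inj (i - 1) (j - 1) (by omega) (by omega) (by omega) (by omega) hij
      omega
  surj := by
    intro j hj hjN
    have hq := S.hq
    by_cases h : j = N
    · exact ⟨S.q + 1, by omega, by omega, by show (if S.q + 1 = S.q + 1 then N else _) = j; rw [if_pos rfl, h]⟩
    · obtain ⟨i, h1, h2, h3⟩ := S.surj j hj (by omega)
      refine ⟨i + 1, by omega, by omega, ?_⟩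
      show (if i + 1 = S.q + 1 then N else S.sg (i + 1 - 1)) = j
      rw [if_neg (by omega), Nat.add_sub_cancel, h3]

end Pool.Agent.H40.Magic
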