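import Pool.Agent.H40.Magic.Defs

/-!
# Tree systems: base (proofs 218, section 1)

`q = z = N - 1`, `sg i = i + 1`, `R = {{N - 1}}`; both children are forbidden.
-/

set_option autoImplicit false

namespace Pool.Agent.H40.Magic

/-- the base system -/
def baseSys (N : ℕ) (hN : 1 ≤ N) : Sys N where
  sg := fun i => i + 1
  q := N - 1
  z := N - 1
  hq := by omega
  hz := by omega
  maps := by intro i hi hq; constructor <;> omega
  inj := by intro i j _ _ _ _ h; simpa using h
  surj := by intro j h1 h2; exact ⟨j - 1, by omega, by omega, by omega⟩

theorem fam_base (N : ℕ) (hN : 1 ≤ N) :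
    ∃ (S : Sys N) (R : Finset (Finset ℕ)), IsFam S R ∧ Inv S R ∧ R.card = 1 := by
  refine ⟨baseSys N hN, {{N - 1}}, ?_, ?_, by simp⟩
  · constructor
    · simp [baseSys]
    · intro T hT i hi
      rw [Finset.mem_singleton] at hT
      subst hT
      rw [Finset.mem_singleton] at hi
      omega
    · intro T hT
      rw [Finset.mem_singleton] at hT
      subst hT
      exact Finset.singleton_nonempty _
    · intro T hT h
      rw [Finset.mem_singleton] at hT
      subst hT
      exact absurd (Finset.mem_singleton_self _) h
    · intro T hT h
      rw [Finset.mem_singleton] at hT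
      subst hT
      exact absurd (Finset.mem_singleton_self _) h
    · intro P h0 _ _ T hT
      rw [Finset.mem_singleton] at hT
      subst hT
      exact h0
  · unfold Inv
    have h1 : (({{N - 1}} : Finset (Finset ℕ)).filter (fun T => N - 1 ∈ T)) = {{N - 1}} := by
      rw [Finset.filter_true_of_mem]
      intro T hT
      rw [Finset.mem_singleton] at hT
      subst hT
      exact Finset.mem_singleton_self _
    have h2 : (({{N - 1}} : Finset (Finset ℕ)).filter (fun T => (baseSys N hN).q ∈ T)) = {{N - 1}} := by
      rw [Finset.filter_true_of_mem]
      intro T hT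
      rw [Finset.mem_singleton] at hT
      subst hT
      exact Finset.mem_singleton_self _
    rw [h1, h2]
    simp

end Pool.Agent.H40.Magic
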